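import Mathlib

/-!
# Configurations in which each point has exactly one point not joined to it (MP_06d6b9_co)

A square matrix `N` with `N Nᵀ = s I + J - Q`, where `Q` is the matrix of an involution without
fixed points: `s + 1` or `s - 1` is a perfect square.
-/

set_option autoImplicit false
set_option linter.unusedSectionVars false

open Finset

namespace Pool.Agent.Helper9.BS

section Det

variable {P : Type*} [Fintype P] [DecidableEq P]

theorem det_blocks (A C : Matrix P P ℚ) :
    (Matrix.fromBlocks A C C A).det = (A + C).det * (A - C).det := by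
  have h1 : Matrix.fromBlocks (1 : Matrix P P ℚ) 1 0 1 * Matrix.fromBlocks A C C A *
      Matrix.fromBlocks (1 : Matrix P P ℚ) (-1) 0 1 =
        Matrix.fromBlocks (A + C) 0 C (A - C) := by
    rw [Matrix.fromBlocks_multiply, Matrix.fromBlocks_multiply]
    congr 1
    · simp
    · simp only [one_mul, zero_mul, add_zero, zero_add, mul_one, mul_neg]
      abel
    · simp
    · simp only [one_mul, zero_mul, add_zero, zero_add, mul_one, mul_neg]
      abel
  have h2 := congrArg Matrix.det h1
  rw [Matrix.det_mul, Matrix.det_mul, Matrix.det_fromBlocks_zero₂₁,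
    Matrix.det_fromBlocks_zero₂₁, Matrix.det_fromBlocks_zero₁₂] at h2
  simpa using h2

theorem det_aJ (a c : ℚ) (ha : a ≠ 0) (A : Matrix P P ℚ)
    (hA : ∀ i j, A i j = (if i = j then a else 0) + c) :
    A.det = a ^ Fintype.card P * (1 + Fintype.card P * (c / a)) := by
  have h1 : A = a • (1 + Matrix.replicateCol Unit (fun _ : P => c / a) *
        Matrix.replicateRow Unit (fun _ : P => (1 : ℚ))) := by
    ext i j
    rw [hA, Matrix.smul_apply, Matrix.add_apply, Matrix.one_apply, Matrix.mul_apply]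
    simp only [Finset.univ_unique, Finset.sum_singleton, Matrix.replicateCol_apply,
      Matrix.replicateRow_apply, mul_one, smul_eq_mul, mul_add]
    congr 1
    · split_ifs <;> simp
    · field_simp
  rw [h1, Matrix.det_smul, Matrix.det_one_add_replicateCol_mul_replicateRow]
  simp [dotProduct]

theorem gram_det {V : Type*} [Fintype V] [DecidableEq V] (φ : P ⊕ P ≃ V) (G : Matrix V V ℚ)
    (s : ℚ) (hs : 2 ≤ s)
    (h11 : ∀ p q, G (φ (Sum.inl p)) (φ (Sum.inl q)) = if p = q then s + 1 else 1)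
    (h12 : ∀ p q, G (φ (Sum.inl p)) (φ (Sum.inr q)) = if p = q then 0 else 1)
    (h21 : ∀ p q, G (φ (Sum.inr p)) (φ (Sum.inl q)) = if p = q then 0 else 1)
    (h22 : ∀ p q, G (φ (Sum.inr p)) (φ (Sum.inr q)) = if p = q then s + 1 else 1) :
    G.det = (s - 1) ^ Fintype.card P * (1 + Fintype.card P * (2 / (s - 1))) *
      (s + 1) ^ Fintype.card P := by
  let A : Matrix P P ℚ := Matrix.of fun i j => if i = j then s + 1 else 1
  let C : Matrix P P ℚ := Matrix.of fun i j => if i = j then 0 else 1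
  have h1 : G.submatrix φ φ = Matrix.fromBlocks A C C A := by
    ext i j
    rw [Matrix.submatrix_apply]
    rcases i with p | p <;> rcases j with q | q
    · exact h11 p q
    · exact h12 p q
    · exact h21 p q
    · exact h22 p q
  rw [← Matrix.det_submatrix_equiv_self φ, h1, det_blocks]
  congr 1
  · apply det_aJ (s - 1) 2 (by linarith)
    intro i j
    change (if i = j then s + 1 else 1) + (if i = j then (0 : ℚ) else 1) = _
    split_ifs <;> ring
  · have h2 := det_aJ (s + 1) 0 (by linarith) (A - C) (by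
      intro i j
      change (if i = j then s + 1 else 1) - (if i = j then (0 : ℚ) else 1) = _
      split_ifs <;> ring)
    rw [h2]
    simp

end Det

/-- pairing off the elements of an involution without fixed points -/
theorem exists_halves {V : Type*} [Fintype V] (π : V → V) (hinv : ∀ x, π (π x) = x)
    (hfix : ∀ x, π x ≠ x) : ∃ (p : V → Prop) (φ : {x // p x} ⊕ {x // p x} ≃ V),
      (∀ x, φ (Sum.inl x) = x.1) ∧ (∀ x, φ (Sum.inr x) = π x.1) ∧
      ∀ x y : {x // p x}, x.1 ≠ π y.1 := by
  let e : V ≃ Fin (Fintype.card V) := Fintype.equivFin V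
  have hlt : ∀ x, e x < e (π x) ∨ e (π x) < e x := by
    intro x
    exact lt_or_gt_of_ne fun h => hfix x (e.injective h).symm
  have hne : ∀ x y : {x // e x < e (π x)}, x.1 ≠ π y.1 := by
    intro p q h
    have h2 := p.2
    rw [h, hinv] at h2
    exact absurd h2 (not_lt.2 q.2.le)
  let f : {x // e x < e (π x)} ⊕ {x // e x < e (π x)} → V :=
    Sum.elim (fun p => p.1) (fun p => π p.1)
  have hf : Function.Bijective f := by
    constructor
    · rintro (p | p) (q | q) h
      · exact congrArg Sum.inl (Subtype.ext h)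
      · exact absurd h (hne p q)
      · exact absurd h.symm (hne q p)
      · have h1 : π p.1 = π q.1 := h
        have h2 := congrArg π h1
        rw [hinv, hinv] at h2
        exact congrArg Sum.inr (Subtype.ext h2)
    · intro x
      rcases hlt x with h | h
      · exact ⟨Sum.inl ⟨x, h⟩, rfl⟩
      · exact ⟨Sum.inr ⟨π x, by rw [hinv]; exact h⟩, hinv x⟩
  exact ⟨fun x => e x < e (π x), Equiv.ofBijective f hf, fun x => rfl, fun x => rfl, hne⟩

/-- a perfect square times `n` is a perfect square: `n` is a perfect square -/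
theorem isSquare_of {n : ℕ} {d m : ℚ} (hm : m ≠ 0) (h : d * d = m * m * n) : IsSquare n := by
  rw [← Rat.isSquare_natCast_iff]
  refine ⟨d / m, ?_⟩
  rw [div_mul_div_comm, h, eq_div_iff (mul_ne_zero hm hm)]
  ring

/-- The numerical part. -/
theorem num_cond (s h : ℕ) (hs : 2 ≤ s) (hh : 2 * h = s ^ 2 + s + 2) (d : ℚ)
    (hd : d * d = ((s : ℚ) - 1) ^ h * (1 + h * (2 / ((s : ℚ) - 1))) * ((s : ℚ) + 1) ^ h) :
    (4 ∣ s * (s + 1) → IsSquare (s + 1)) ∧ (¬ 4 ∣ s * (s + 1) → IsSquare (s - 1)) := by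
  have hsQ : (2 : ℚ) ≤ s := by exact_mod_cast hs
  have hhQ : 2 * (h : ℚ) = (s : ℚ) ^ 2 + s + 2 := by exact_mod_cast hh
  have h8 : (s : ℚ) - 1 ≠ 0 := by linarith
  have h9 : (s : ℚ) + 1 ≠ 0 := by linarith
  have h3 : ((s : ℚ) - 1) * (1 + h * (2 / ((s : ℚ) - 1))) = ((s : ℚ) + 1) ^ 2 := by
    have h4 : ((s : ℚ) - 1) * (1 + h * (2 / ((s : ℚ) - 1))) = ((s : ℚ) - 1) + 2 * h := by
      field_simp
    rw [h4, hhQ]
    ring
  obtain ⟨t, ht⟩ : ∃ t, h = t + 1 := ⟨h - 1, by omega⟩
  have h5 : d * d = ((s : ℚ) - 1) ^ t * ((s : ℚ) + 1) ^ (t + 3) := by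
    rw [hd]
    calc ((s : ℚ) - 1) ^ h * (1 + h * (2 / ((s : ℚ) - 1))) * ((s : ℚ) + 1) ^ h
        = ((s : ℚ) - 1) ^ t * (((s : ℚ) - 1) * (1 + h * (2 / ((s : ℚ) - 1)))) *
          ((s : ℚ) + 1) ^ h := by
          nth_rewrite 1 [ht]
          rw [pow_succ]; ring
      _ = _ := by rw [h3, ht]; ring
  have e1 : s * (s + 1) = s ^ 2 + s := by ring
  constructor
  · intro h4
    obtain ⟨k, hk⟩ : ∃ k, t = k + k := by
      obtain ⟨k, hk⟩ := h4
      exact ⟨k, by omega⟩
    apply isSquare_of (d := d) (m := ((s : ℚ) - 1) ^ k * ((s : ℚ) + 1) ^ (k + 1))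
      (mul_ne_zero (pow_ne_zero _ h8) (pow_ne_zero _ h9))
    rw [h5, hk]
    push_cast
    ring
  · intro h4
    obtain ⟨k, hk⟩ : ∃ k, t = 2 * k + 1 := by
      rcases Nat.even_or_odd t with ⟨k, hk⟩ | ⟨k, hk⟩
      · exfalso
        apply h4
        exact ⟨k, by omega⟩
      · exact ⟨k, hk⟩
    apply isSquare_of (d := d) (m := ((s : ℚ) - 1) ^ k * ((s : ℚ) + 1) ^ (k + 2))
      (mul_ne_zero (pow_ne_zero _ h8) (pow_ne_zero _ h9))
    rw [h5, hk, Nat.cast_sub (by omega)]
    push_cast
    ring

open scoped Classical in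
/-- The square condition. -/
theorem square_cond {V W : Type*} [Fintype V] [Fintype W]
    (hVW : Fintype.card V = Fintype.card W) (N : V → W → ℤ) (s : ℕ) (hs : 2 ≤ s)
    (hV : Fintype.card V = s ^ 2 + s + 2)
    (hd : ∀ x, ∑ b, N x b * N x b = (s : ℤ) + 1)
    (h01 : ∀ x y, x ≠ y → ∑ b, N x b * N y b = 0 ∨ ∑ b, N x b * N y b = 1)
    (hu : ∀ x, ∃! y, y ≠ x ∧ ∑ b, N x b * N y b = 0) :
    (4 ∣ s * (s + 1) → IsSquare (s + 1)) ∧ (¬ 4 ∣ s * (s + 1) → IsSquare (s - 1)) := by
  choose π hπ hπu using hu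
  have hsymm : ∀ x y, ∑ b, N x b * N y b = ∑ b, N y b * N x b := by
    intro x y
    exact Finset.sum_congr rfl fun b _ => mul_comm _ _
  have hinv : ∀ x, π (π x) = x := by
    intro x
    refine (hπu (π x) x ⟨(hπ x).1.symm, ?_⟩).symm
    rw [hsymm]
    exact (hπ x).2
  have hfix : ∀ x, π x ≠ x := fun x => (hπ x).1
  obtain ⟨p, φ, hφl, hφr, hne⟩ := exists_halves π hinv hfix
  have hcard : 2 * Fintype.card {x // p x} = s ^ 2 + s + 2 := by
    have h1 := Fintype.card_congr φ
    rw [Fintype.card_sum, hV] at h1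
    omega
  let ε : V ≃ W := Fintype.equivOfCardEq hVW
  let M : Matrix V V ℤ := Matrix.of fun x y => N x (ε y)
  let G : Matrix V V ℚ := (M * M.transpose).map (Int.castRingHom ℚ)
  have hval : ∀ x y, G x y = if x = y then (s : ℚ) + 1 else if y = π x then 0 else 1 := by
    intro x y
    have h1 : G x y = ((∑ b, N x b * N y b : ℤ) : ℚ) := by
      change ((∑ j, N x (ε j) * N y (ε j) : ℤ) : ℚ) = _
      rw [Equiv.sum_comp ε (fun b => N x b * N y b)]
    rw [h1]
    split_ifs with h2 h3
    · rw [← h2, hd x]; push_cast; ring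
    · rw [h3, (hπ x).2]; simp
    · rcases h01 x y h2 with h4 | h4
      · exact absurd (hπu x y ⟨Ne.symm h2, h4⟩) h3
      · rw [h4]; simp
  have hG : G.det = ((M.det : ℤ) : ℚ) * ((M.det : ℤ) : ℚ) := by
    have h1 : (Int.castRingHom ℚ) (M * M.transpose).det = G.det := RingHom.map_det _ _
    rw [← h1, Matrix.det_mul, Matrix.det_transpose, map_mul]
    rfl
  have hinj : ∀ x y : {x // p x}, (π x.1 = π y.1) ↔ x = y := by
    intro x y
    constructor
    · intro h
      have h2 := congrArg π h
      rw [hinv, hinv] at h2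
      exact Subtype.ext h2
    · rintro rfl; rfl
  have hgd := gram_det φ G (s : ℚ) (by exact_mod_cast hs)
    (by
      intro x y
      rw [hφl, hφl, hval]
      by_cases h : x = y
      · subst h; simp
      · rw [if_neg (fun h1 => h (Subtype.ext h1)), if_neg (hne y x), if_neg h])
    (by
      intro x y
      rw [hφl, hφr, hval, if_neg (hne x y)]
      by_cases h : x = y
      · subst h; simp
      · rw [if_neg (fun h1 => h ((hinj x y).1 h1.symm)), if_neg h])
    (by
      intro x y
      rw [hφr, hφl, hval, hinv, if_neg (fun h1 => hne y x h1.symm)]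
      by_cases h : x = y
      · subst h; simp
      · rw [if_neg (fun h1 => h (Subtype.ext h1.symm)), if_neg h])
    (by
      intro x y
      rw [hφr, hφr, hval, hinv]
      by_cases h : x = y
      · subst h; simp
      · rw [if_neg (fun h1 => h ((hinj x y).1 h1)), if_neg (fun h1 => hne x y h1.symm),
          if_neg h])
  rw [hG] at hgd
  exact num_cond s _ hs hcard _ hgd

end Pool.Agent.Helper9.BS
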