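import Pool.Agent.Helper9.BS.Avoid
import Pool.Agent.Helper9.BS.Lin

/-!
# Critical sets without elements of the subplane (MP_06d6b9_co): the square condition
-/

set_option autoImplicit false
set_option linter.unusedSectionVars false

open Finset
open scoped Classical

namespace Pool.Agent.Helper9.BS

open Pool.Agent.Helper28.Baer

variable {X B : Type*} [Fintype X] [Fintype B]
variable {I : X → B → Prop} {s : ℕ} {X0 : Finset X} {B0 : Finset B} {S : Finset X}
  {X1 : Finset X} {B1 : Finset B} {F : Finset B}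

/-- the number of elements of `S` on the common blocks -/
theorem Av.card_common (h : Av I s X0 B0 X1 B1 S F) :
    #{x ∈ S | ∃ b ∈ B0 ∩ B1, I x b} = #(B0 ∩ B1) := by
  have h1 : ∀ b ∈ B0 ∩ B1, #{x ∈ S | I x b} = 1 := by
    intro b hb
    rw [Finset.mem_inter] at hb
    have h2 := h.tw.nb b
    rw [if_pos hb.1, if_pos hb.2, if_neg (fun hF => h.hF b hF hb.2), mul_zero, add_zero] at h2
    have h3 : (n I S b : ℤ) = 1 := by linarith
    exact_mod_cast h3
  have h2 : ∑ b ∈ B0 ∩ B1, #{x ∈ S | I x b} = ∑ x ∈ S, #{b ∈ B0 ∩ B1 | I x b} := by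
    simp_rw [Finset.card_filter]
    exact Finset.sum_comm
  rw [Finset.sum_congr rfl h1, ← Finset.card_eq_sum_ones] at h2
  rw [h2, Finset.card_filter]
  apply Finset.sum_congr rfl
  intro x hx
  split_ifs with h3
  · obtain ⟨b, hb, hxb⟩ := h3
    symm
    rw [Finset.card_eq_one]
    refine ⟨b, ?_⟩
    ext c
    rw [Finset.mem_filter, Finset.mem_singleton]
    constructor
    · rintro ⟨hc, hxc⟩
      exact uniq_B0 h.tw.p0 (h.hS x hx) (Finset.mem_inter.1 hc).1 (Finset.mem_inter.1 hb).1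
        hxc hxb
    · rintro rfl
      exact ⟨hb, hxb⟩
  · symm
    rw [Finset.card_eq_zero, Finset.filter_eq_empty_iff]
    intro b hb hxb
    exact h3 ⟨b, hb, hxb⟩

/-- In the second type the long inner blocks avoid the second subplane in `S`. -/
theorem Av.avoid (h : Av I s X0 B0 X1 B1 S F) (hk : #(F ∩ B0) = s) (hZ : #(S ∩ X1) = s)
    (hc : #(B0 ∩ B1) = s + 1) {z : X} (hz : z ∈ S) (hz1 : z ∈ X1) {g : B} (hg : g ∈ F)
    (hgB : g ∈ B0) : ¬ I z g := by
  intro hzg
  have hs := h.hs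
  -- the elements of `S ∩ X1` on long inner blocks
  set Z' : Finset X := {x ∈ S ∩ X1 | ∃ b ∈ F ∩ B0, I x b} with hZ'
  have hr : 1 ≤ #Z' := by
    rw [Nat.one_le_iff_ne_zero, Finset.card_ne_zero]
    exact ⟨z, by
      rw [hZ', Finset.mem_filter, Finset.mem_inter]
      exact ⟨⟨hz, hz1⟩, g, Finset.mem_inter.2 ⟨hg, hgB⟩, hzg⟩⟩
  have hLo : #Z' + 1 ≤ #(Lo I B0 X1 B1 S) := by
    have h1 : ({x ∈ S | ∃ b ∈ B0 ∩ B1, I x b} : Finset X) ⊆
        Lo I B0 X1 B1 S ∪ ((S ∩ X1) \ Z') := by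
      intro x hx
      rw [Finset.mem_filter] at hx
      rw [Finset.mem_union, mem_Lo, Finset.mem_sdiff, Finset.mem_inter, hZ', Finset.mem_filter]
      by_cases h2 : x ∈ X1
      · right
        refine ⟨⟨hx.1, h2⟩, ?_⟩
        rintro ⟨-, b, hb, hxb⟩
        obtain ⟨c, hc, hxc⟩ := hx.2
        rw [Finset.mem_inter] at hb hc
        exact h.hF b hb.1 (uniq_B0 h.tw.p0 (h.hS x hx.1) hb.2 hc.1 hxb hxc ▸ hc.2)
      · left
        exact ⟨hx.1, h2, hx.2⟩
    have h2 := (Finset.card_le_card h1).trans (Finset.card_union_le _ _)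
    have h3 : #((S ∩ X1) \ Z') + #Z' = #(S ∩ X1) :=
      Finset.card_sdiff_add_card_eq_card (Finset.filter_subset _ _)
    rw [h.card_common, hc] at h2
    omega
  -- the long inner blocks with an element of `S ∩ X1`
  set G : Finset B := {b ∈ F ∩ B0 | ∃ x ∈ S ∩ X1, I x b} with hG
  have hGle : #G ≤ #Z' := by
    have h1 : ∀ b ∈ G, ∃ x, x ∈ S ∩ X1 ∧ I x b := by
      intro b hb
      rw [hG, Finset.mem_filter] at hb
      exact hb.2
    have : Nonempty X := ⟨z⟩
    choose! q hq using h1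
    apply Finset.card_le_card_of_injOn q
    · intro b hb
      have h2 := hq b hb
      rw [Finset.mem_coe, hG, Finset.mem_filter] at hb
      rw [Finset.mem_coe, hZ', Finset.mem_filter]
      exact ⟨h2.1, b, hb.1, h2.2⟩
    · intro b hb c hc hbc
      have e1 := hq b hb
      have e2 := hq c hc
      rw [← hbc] at e2
      rw [Finset.mem_coe, hG, Finset.mem_filter, Finset.mem_inter] at hb hc
      exact uniq_B0 h.tw.p0 (h.hS _ (Finset.mem_inter.1 e1.1).1) hb.1.2 hc.1.2 e1.2 e2.2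
  have hGs : G ⊆ F ∩ B0 := Finset.filter_subset _ _
  have hsplit : #((F ∩ B0) \ G) + #G = s := by
    rw [Finset.card_sdiff_add_card_eq_card hGs, hk]
  -- the other long inner blocks have a common element of the subplanes
  have hother : ∀ b ∈ (F ∩ B0) \ G, #(AA I X0 B0 F b) ≤ 1 := by
    intro b hb
    rw [Finset.mem_sdiff, Finset.mem_inter, hG, Finset.mem_filter, Finset.mem_inter] at hb
    obtain ⟨⟨hbF, hbB⟩, hb2⟩ := hb
    have h1 := h.tw.p1.b0 b (h.hF b hbF)
    rw [Finset.card_eq_one] at h1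
    obtain ⟨q, hq⟩ := h1
    have hqm : q ∈ ({x ∈ X1 | I x b} : Finset X) := by rw [hq]; simp
    rw [Finset.mem_filter] at hqm
    have hqS : q ∉ S := by
      intro hS
      exact hb2 ⟨⟨hbF, hbB⟩, q, Finset.mem_inter.2 ⟨hS, hqm.1⟩, hqm.2⟩
    have hq0 : q ∈ X0 := by
      by_contra hn
      have h2 := h.tw.dx q
      rw [if_neg hqS, if_neg hn, if_pos hqm.1] at h2
      have h3 : 1 ≤ d I F q := by
        unfold d
        rw [Nat.one_le_iff_ne_zero, Finset.card_ne_zero]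
        exact ⟨b, by rw [Finset.mem_filter]; exact ⟨hbF, hqm.2⟩⟩
      have h4 : (1 : ℤ) ≤ d I F q := by exact_mod_cast h3
      linarith
    exact h.AA_le' hk hbF hbB hq0 hqm.1 hqm.2
  by_cases h2 : 2 ≤ #((F ∩ B0) \ G)
  · obtain ⟨b, hb, b', hb', hbb⟩ := Finset.one_lt_card.1 h2
    have hm := Finset.mem_inter.1 (Finset.mem_sdiff.1 hb).1
    have hm' := Finset.mem_inter.1 (Finset.mem_sdiff.1 hb').1
    have h3 := h.Lo_le hm.1 hm.2 hm'.1 hm'.2 hbb
    have h4 := Nat.mul_le_mul (hother b hb) (hother b' hb')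
    omega
  · have h5 : 2 ≤ #(F ∩ B0) := by omega
    obtain ⟨b, hb, b', hb', hbb⟩ := Finset.one_lt_card.1 h5
    rw [Finset.mem_inter] at hb hb'
    have h3 := h.Lo_le hb.1 hb.2 hb'.1 hb'.2 hbb
    have h4 := Nat.mul_le_mul (h.AA_le hk hb.1 hb.2) (h.AA_le hk hb'.1 hb'.2)
    omega

/-- uniqueness of the partner from the row and column sums -/
theorem exists_partner {V W : Type*} [Fintype V] [Fintype W] (N : V → W → ℤ) (s : ℕ)
    (hV : Fintype.card V = s ^ 2 + s + 2) (hrow : ∀ x, ∑ b, N x b = (s : ℤ) + 1)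
    (hcol : ∀ b, ∑ x, N x b = (s : ℤ) + 1)
    (hd : ∀ x, ∑ b, N x b * N x b = (s : ℤ) + 1)
    (h01 : ∀ x y, x ≠ y → ∑ b, N x b * N y b = 0 ∨ ∑ b, N x b * N y b = 1) (x : V) :
    ∃! y, y ≠ x ∧ ∑ b, N x b * N y b = 0 := by
  have h1 : ∑ y, ∑ b, N x b * N y b = ((s : ℤ) + 1) ^ 2 := by
    rw [Finset.sum_comm]
    simp_rw [← Finset.mul_sum, hcol, ← Finset.sum_mul, hrow]
    ring
  rw [← Finset.add_sum_erase _ _ (Finset.mem_univ x), hd] at h1
  have h2 : ∀ y ∈ (Finset.univ : Finset V).erase x, ∑ b, N x b * N y b =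
      1 - if ∑ b, N x b * N y b = 0 then 1 else 0 := by
    intro y hy
    rw [Finset.mem_erase] at hy
    rcases h01 x y (Ne.symm hy.1) with h3 | h3
    · rw [h3]; simp
    · rw [h3]; simp
  rw [Finset.sum_congr rfl h2, Finset.sum_sub_distrib, Finset.sum_const,
    Finset.card_erase_of_mem (Finset.mem_univ x), Finset.card_univ, hV, ← Finset.sum_filter,
    Finset.sum_const] at h1
  simp only [nsmul_eq_mul, mul_one] at h1
  have h3 : (#{y ∈ (Finset.univ : Finset V).erase x | ∑ b, N x b * N y b = 0} : ℤ) = 1 := by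
    have h4 : ((s ^ 2 + s + 2 - 1 : ℕ) : ℤ) = (s : ℤ) ^ 2 + s + 1 := by
      have : s ^ 2 + s + 2 - 1 = s ^ 2 + s + 1 := by omega
      rw [this]; push_cast; ring
    rw [h4] at h1
    linear_combination -h1
  have h4 : #{y ∈ (Finset.univ : Finset V).erase x | ∑ b, N x b * N y b = 0} = 1 := by
    exact_mod_cast h3
  rw [Finset.card_eq_one] at h4
  obtain ⟨y, hy⟩ := h4
  have hy' : ∀ w, w ∈ ({y ∈ (Finset.univ : Finset V).erase x | ∑ b, N x b * N y b = 0} :
      Finset V) ↔ w ≠ x ∧ ∑ b, N x b * N w b = 0 := by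
    intro w
    rw [Finset.mem_filter, Finset.mem_erase]
    simp
  refine ⟨y, (hy' y).1 (by rw [hy]; simp), ?_⟩
  intro w hw
  have := (hy' w).2 hw
  rw [hy, Finset.mem_singleton] at this
  exact this

/-- The augmented incidence matrix. -/
noncomputable def NN (I : X → B → Prop) (B0 : Finset B) (X1 : Finset X) (S : Finset X)
    (F : Finset B) (δ : ℤ) : Option {x // x ∈ S} → Option {b // b ∈ F} → ℤ
  | some x, some b => if I x.1 b.1 then 1 else 0
  | some x, none => if x.1 ∈ X1 then 1 else 0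
  | none, some b => if b.1 ∈ B0 then 1 else 0
  | none, none => δ

theorem sum_opt {α : Type*} (A : Finset α) (f : Option {x // x ∈ A} → ℤ) (g : α → ℤ)
    (hg : ∀ x : {x // x ∈ A}, f (some x) = g x.1) : ∑ x, f x = f none + ∑ x ∈ A, g x := by
  rw [Fintype.sum_option, ← Finset.sum_coe_sort A]
  congr 1
  exact Finset.sum_congr rfl fun x _ => hg x

theorem Av.square (h : Av I s X0 B0 X1 B1 S F) (δ : ℤ) (hδ : δ = 0 ∨ δ = 1)
    (hk : (#(F ∩ B0) : ℤ) + δ = s + 1) (hZ : (#(S ∩ X1) : ℤ) + δ = s + 1)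
    (hav : δ = 1 → ∀ z ∈ S, z ∈ X1 → ∀ g ∈ F, g ∈ B0 → ¬ I z g) :
    (4 ∣ s * (s + 1) → IsSquare (s + 1)) ∧ (¬ 4 ∣ s * (s + 1) → IsSquare (s - 1)) := by
  have hs := h.hs
  have hδ2 : δ * δ = δ := by rcases hδ with rfl | rfl <;> norm_num
  have cV : Fintype.card (Option {x // x ∈ S}) = s ^ 2 + s + 2 := by
    rw [Fintype.card_option, Fintype.card_coe, h.tw.cS]
  have cW : Fintype.card (Option {b // b ∈ F}) = s ^ 2 + s + 2 := by
    rw [Fintype.card_option, Fintype.card_coe, h.tw.cF]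
  have hdS : ∀ x ∈ S, (∑ b ∈ F, (if I x b then (1 : ℤ) else 0)) =
      1 + s - (if x ∈ X1 then 1 else 0) := by
    intro x hx
    rw [← h.d_S hx, ← Finset.sum_filter]
    simp [d]
  have hnF : ∀ b ∈ F, (∑ x ∈ S, (if I x b then (1 : ℤ) else 0)) =
      1 + s - (if b ∈ B0 then 1 else 0) := by
    intro b hb
    rw [← h.n_F hb, ← Finset.sum_filter]
    simp [n]
  have hrow : ∀ x, ∑ b, NN I B0 X1 S F δ x b = (s : ℤ) + 1 := by
    rintro (_ | x)
    · rw [sum_opt F _ (fun b => if b ∈ B0 then 1 else 0) (fun b => rfl), sum_ind]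
      change δ + _ = _
      linarith
    · rw [sum_opt F _ (fun b => if I x.1 b then 1 else 0) (fun b => rfl), hdS x.1 x.2]
      change (if x.1 ∈ X1 then (1 : ℤ) else 0) + _ = _
      ring
  have hcol : ∀ b, ∑ x, NN I B0 X1 S F δ x b = (s : ℤ) + 1 := by
    rintro (_ | b)
    · rw [sum_opt S _ (fun x => if x ∈ X1 then 1 else 0) (fun b => rfl), sum_ind]
      change δ + _ = _
      linarith
    · rw [sum_opt S _ (fun x => if I x b.1 then 1 else 0) (fun b => rfl), hnF b.1 b.2]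
      change (if b.1 ∈ B0 then (1 : ℤ) else 0) + _ = _
      ring
  have hd : ∀ x, ∑ b, NN I B0 X1 S F δ x b * NN I B0 X1 S F δ x b = (s : ℤ) + 1 := by
    intro x
    rw [← hrow x]
    apply Finset.sum_congr rfl
    rintro b -
    rcases x with _ | x <;> rcases b with _ | b
    · exact hδ2
    · change (if b.1 ∈ B0 then (1 : ℤ) else 0) * (if b.1 ∈ B0 then (1 : ℤ) else 0) =
        (if b.1 ∈ B0 then (1 : ℤ) else 0)
      split_ifs <;> norm_num
    · change (if x.1 ∈ X1 then (1 : ℤ) else 0) * (if x.1 ∈ X1 then (1 : ℤ) else 0) =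
        (if x.1 ∈ X1 then (1 : ℤ) else 0)
      split_ifs <;> norm_num
    · change (if I x.1 b.1 then (1 : ℤ) else 0) * (if I x.1 b.1 then (1 : ℤ) else 0) =
        (if I x.1 b.1 then (1 : ℤ) else 0)
      split_ifs <;> norm_num
  -- an element of `S` and the new row
  have hnone : ∀ x : {x // x ∈ S}, ∑ b, NN I B0 X1 S F δ (some x) b * NN I B0 X1 S F δ none b = 0 ∨
      ∑ b, NN I B0 X1 S F δ (some x) b * NN I B0 X1 S F δ none b = 1 := by
    intro x
    rw [sum_opt F _ (fun b => (if I x.1 b then 1 else 0) * (if b ∈ B0 then 1 else 0))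
      (fun b => rfl)]
    change (if x.1 ∈ X1 then (1 : ℤ) else 0) * δ +
      ∑ b ∈ F, (if I x.1 b then (1 : ℤ) else 0) * (if b ∈ B0 then 1 else 0) = 0 ∨
      (if x.1 ∈ X1 then (1 : ℤ) else 0) * δ +
      ∑ b ∈ F, (if I x.1 b then (1 : ℤ) else 0) * (if b ∈ B0 then 1 else 0) = 1
    have e1 : ∑ b ∈ F, (if I x.1 b then (1 : ℤ) else 0) * (if b ∈ B0 then 1 else 0) =
        #{b ∈ F | I x.1 b ∧ b ∈ B0} := by
      rw [← Finset.sum_boole]
      apply Finset.sum_congr rfl
      intro b _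
      by_cases h1 : I x.1 b <;> by_cases h2 : b ∈ B0 <;> simp [h1, h2]
    have e2 : #{b ∈ F | I x.1 b ∧ b ∈ B0} ≤ 1 := by
      rw [Finset.card_le_one]
      intro b hb c hc
      rw [Finset.mem_filter] at hb hc
      exact uniq_B0 h.tw.p0 (h.hS x.1 x.2) hb.2.2 hc.2.2 hb.2.1 hc.2.1
    rw [e1]
    by_cases h1 : x.1 ∈ X1
    · rw [if_pos h1, one_mul]
      rcases hδ with h2 | h2
      · rw [h2, zero_add]
        have : #{b ∈ F | I x.1 b ∧ b ∈ B0} = 0 ∨ #{b ∈ F | I x.1 b ∧ b ∈ B0} = 1 := by omega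
        rcases this with h3 | h3 <;> rw [h3] <;> simp
      · have h3 : #{b ∈ F | I x.1 b ∧ b ∈ B0} = 0 := by
          rw [Finset.card_eq_zero, Finset.filter_eq_empty_iff]
          rintro b hb ⟨h4, h5⟩
          exact hav h2 x.1 x.2 h1 b hb h5 h4
        rw [h3, h2]; simp
    · rw [if_neg h1, zero_mul, zero_add]
      have : #{b ∈ F | I x.1 b ∧ b ∈ B0} = 0 ∨ #{b ∈ F | I x.1 b ∧ b ∈ B0} = 1 := by omega
      rcases this with h3 | h3 <;> rw [h3] <;> simp
  have h01 : ∀ x y, x ≠ y →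
      ∑ b, NN I B0 X1 S F δ x b * NN I B0 X1 S F δ y b = 0 ∨
      ∑ b, NN I B0 X1 S F δ x b * NN I B0 X1 S F δ y b = 1 := by
    rintro (_ | x) (_ | y) hxy
    · exact absurd rfl hxy
    · have e1 : ∑ b, NN I B0 X1 S F δ none b * NN I B0 X1 S F δ (some y) b =
          ∑ b, NN I B0 X1 S F δ (some y) b * NN I B0 X1 S F δ none b :=
        Finset.sum_congr rfl fun b _ => mul_comm _ _
      rw [e1]
      exact hnone y
    · exact hnone x
    · have hne : x.1 ≠ y.1 := fun e => hxy (congrArg some (Subtype.ext e))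
      rw [sum_opt F _ (fun b => (if I x.1 b then 1 else 0) * (if I y.1 b then 1 else 0))
        (fun b => rfl)]
      change (if x.1 ∈ X1 then (1 : ℤ) else 0) * (if y.1 ∈ X1 then (1 : ℤ) else 0) +
        ∑ b ∈ F, (if I x.1 b then (1 : ℤ) else 0) * (if I y.1 b then 1 else 0) = 0 ∨
        (if x.1 ∈ X1 then (1 : ℤ) else 0) * (if y.1 ∈ X1 then (1 : ℤ) else 0) +
        ∑ b ∈ F, (if I x.1 b then (1 : ℤ) else 0) * (if I y.1 b then 1 else 0) = 1
      have e1 : ∑ b ∈ F, (if I x.1 b then (1 : ℤ) else 0) * (if I y.1 b then 1 else 0) =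
          #{b ∈ F | I x.1 b ∧ I y.1 b} := by
        rw [← Finset.sum_boole]
        apply Finset.sum_congr rfl
        intro b _
        by_cases h1 : I x.1 b <;> by_cases h2 : I y.1 b <;> simp [h1, h2]
      have e2 : #{b ∈ F | I x.1 b ∧ I y.1 b} ≤ 1 := by
        rw [Finset.card_le_one]
        intro b hb c hc
        rw [Finset.mem_filter] at hb hc
        exact uniq_block h.tw.p0 hne hb.2.1 hb.2.2 hc.2.1 hc.2.2
      rw [e1]
      by_cases h1 : x.1 ∈ X1 ∧ y.1 ∈ X1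
      · rw [if_pos h1.1, if_pos h1.2]
        have h3 : #{b ∈ F | I x.1 b ∧ I y.1 b} = 0 := by
          rw [Finset.card_eq_zero, Finset.filter_eq_empty_iff]
          rintro b hb ⟨h4, h5⟩
          exact h.hF b hb (join_mem h.tw.p1 h1.1 h1.2 hne h4 h5)
        rw [h3]; simp
      · have h2 : (if x.1 ∈ X1 then (1 : ℤ) else 0) * (if y.1 ∈ X1 then (1 : ℤ) else 0) = 0 := by
          by_cases h3 : x.1 ∈ X1
          · rw [if_neg (fun h4 => h1 ⟨h3, h4⟩), mul_zero]
          · rw [if_neg h3, zero_mul]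
        rw [h2, zero_add]
        have : #{b ∈ F | I x.1 b ∧ I y.1 b} = 0 ∨ #{b ∈ F | I x.1 b ∧ I y.1 b} = 1 := by omega
        rcases this with h3 | h3 <;> rw [h3] <;> simp
  exact square_cond (cV.trans cW.symm) (NN I B0 X1 S F δ) s (by omega) cV hd h01
    (exists_partner _ s cV hrow hcol hd h01)

/-- The square condition for critical sets which avoid the subplane. -/
theorem square_of_crit (hC : Crit I s X0 B0 S) (h : Tw I s X0 B0 X1 B1 S F)
    (ha : ∀ x ∈ S, x ∉ X0) :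
    (4 ∣ s * (s + 1) → IsSquare (s + 1)) ∧ (¬ 4 ∣ s * (s + 1) → IsSquare (s - 1)) := by
  have hs := hC.hs
  have h0 : #(S ∩ X0) = 0 := by
    rw [Finset.card_eq_zero, Finset.eq_empty_iff_forall_notMem]
    intro x hx
    rw [Finset.mem_inter] at hx
    exact ha x hx.1 hx.2
  obtain ⟨e1, e2⟩ := h.eq_a (by omega)
  have hF : ∀ b ∈ F, b ∉ B1 := by
    intro b hb hb1
    have h1 : #(F ∩ B1) = 0 := by rw [← e1, h0]
    rw [Finset.card_eq_zero, Finset.eq_empty_iff_forall_notMem] at h1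
    exact h1 b (Finset.mem_inter.2 ⟨hb, hb1⟩)
  have hA : Av I s X0 B0 X1 B1 S F := ⟨h, hs, ha, hF⟩
  rcases types hC h with ⟨-, -, -, h4⟩ | ⟨h3, -, -, h4⟩
  · rw [h0, zero_add] at h4
    refine hA.square 0 (Or.inl rfl) ?_ ?_ (fun h5 => absurd h5 (by norm_num))
    · rw [h4]; push_cast; ring
    · rw [e2, h4]; push_cast; ring
  · rw [h0, zero_add] at h4
    refine hA.square 1 (Or.inr rfl) ?_ ?_ ?_
    · rw [h4]
    · rw [e2, h4]
    · intro _ z hz hz1 g hg hgB
      exact hA.avoid h4 (e2.trans h4) h3 hz hz1 hg hgB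

end Pool.Agent.Helper9.BS
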