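import Pool.Agent.Helper9.BS.Types

/-!
# Critical sets without elements of the subplane (MP_06d6b9_co): long inner blocks
-/

set_option autoImplicit false
set_option linter.unusedSectionVars false

open Finset
open scoped Classical

namespace Pool.Agent.Helper9.BS

open Pool.Agent.Helper28.Baer

variable {X B : Type*} [Fintype X] [Fintype B]
variable {I : X → B → Prop} {s : ℕ} {X0 : Finset X} {B0 : Finset B} {S : Finset X}
  {X1 : Finset X} {B1 : Finset B} {F : Finset B}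

/-- A twisted pair without an element of `S` in the first subplane. -/
structure Av (I : X → B → Prop) (s : ℕ) (X0 : Finset X) (B0 : Finset B) (X1 : Finset X)
    (B1 : Finset B) (S : Finset X) (F : Finset B) : Prop where
  tw : Tw I s X0 B0 X1 B1 S F
  hs : 20 ≤ s
  hS : ∀ x ∈ S, x ∉ X0
  hF : ∀ b ∈ F, b ∉ B1

theorem Av.d_S (h : Av I s X0 B0 X1 B1 S F) {x : X} (hx : x ∈ S) :
    (d I F x : ℤ) = 1 + s - (if x ∈ X1 then 1 else 0) := by
  have h1 := h.tw.dx x
  rw [if_pos hx, if_neg (h.hS x hx)] at h1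
  linarith

theorem Av.n_F (h : Av I s X0 B0 X1 B1 S F) {b : B} (hb : b ∈ F) :
    (n I S b : ℤ) = 1 + s - (if b ∈ B0 then 1 else 0) := by
  have h1 := h.tw.nb b
  rw [if_pos hb, if_neg (h.hF b hb)] at h1
  linarith

/-- two inner blocks meet in the subplane -/
theorem meet_mem (h : Pl I s X0 B0) {b c : B} (hb : b ∈ B0) (hc : c ∈ B0) (hbc : b ≠ c) {x : X}
    (h1 : I x b) (h2 : I x c) : x ∈ X0 := by
  by_contra hx
  exact hbc (uniq_B0 h hx hb hc h1 h2)

/-- two elements of the subplane are joined in it -/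
theorem join_mem (h : Pl I s X0 B0) {x y : X} (hx : x ∈ X0) (hy : y ∈ X0) (hxy : x ≠ y) {b : B}
    (h1 : I x b) (h2 : I y b) : b ∈ B0 := by
  by_contra hb
  exact hxy (uniq_X0 h hb hx hy h1 h2)

/-- The long outer blocks which meet `b` in the subplane. -/
noncomputable def AA (I : X → B → Prop) (X0 : Finset X) (B0 : Finset B) (F : Finset B) (b : B) :
    Finset B := {c ∈ F | c ∉ B0 ∧ ∃ p ∈ X0, I p b ∧ I p c}

theorem mem_AA {b c : B} : c ∈ AA I X0 B0 F b ↔ c ∈ F ∧ c ∉ B0 ∧ ∃ p ∈ X0, I p b ∧ I p c := by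
  simp [AA]

/-- an element outside `S` on two long blocks -/
theorem Av.two (h : Av I s X0 B0 X1 B1 S F) {p : X} (hp : p ∉ S) {b c : B} (hb : b ∈ F)
    (hc : c ∈ F) (hbc : b ≠ c) (h1 : I p b) (h2 : I p c) : p ∈ X0 ∧ p ∉ X1 ∧ d I F p = 2 := by
  have h3 : 2 ≤ d I F p := by
    unfold d
    have : ({b, c} : Finset B) ⊆ ({e ∈ F | I p e} : Finset B) := by
      intro e he
      rw [Finset.mem_insert, Finset.mem_singleton] at he
      rw [Finset.mem_filter]
      rcases he with rfl | rfl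
      · exact ⟨hb, h1⟩
      · exact ⟨hc, h2⟩
    have h4 := Finset.card_le_card this
    rwa [Finset.card_pair hbc] at h4
  have h4 := h.tw.dx p
  rw [if_neg hp, mul_zero, add_zero] at h4
  have h5 : (2 : ℤ) ≤ d I F p := by exact_mod_cast h3
  by_cases h6 : p ∈ X0
  · rw [if_pos h6] at h4
    by_cases h7 : p ∈ X1
    · rw [if_pos h7] at h4
      linarith
    · rw [if_neg h7] at h4
      have h8 : (d I F p : ℤ) = 2 := by linarith
      exact ⟨h6, h7, by exact_mod_cast h8⟩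
  · exfalso
    rw [if_neg h6] at h4
    split_ifs at h4 <;> linarith

/-- no third long block -/
theorem Av.third (h : Av I s X0 B0 X1 B1 S F) {p : X} (hp : p ∉ S) {a b c : B} (ha : a ∈ F)
    (hb : b ∈ F) (hc : c ∈ F) (hab : a ≠ b) (hac : a ≠ c) (hbc : b ≠ c) (h0 : I p a)
    (h1 : I p b) (h2 : I p c) : False := by
  have h3 := (h.two hp hb hc hbc h1 h2).2.2
  have h4 : ({a, b, c} : Finset B) ⊆ ({e ∈ F | I p e} : Finset B) := by
    intro e he
    rw [Finset.mem_insert, Finset.mem_insert, Finset.mem_singleton] at he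
    rw [Finset.mem_filter]
    rcases he with rfl | rfl | rfl
    · exact ⟨ha, h0⟩
    · exact ⟨hb, h1⟩
    · exact ⟨hc, h2⟩
  have h5 := Finset.card_le_card h4
  rw [Finset.card_eq_three.2 ⟨a, b, c, hab, hac, hbc, rfl⟩] at h5
  unfold d at h3
  omega

theorem Av.AA_disj (h : Av I s X0 B0 X1 B1 S F) {b b' c : B} (hb : b ∈ F) (hb' : b' ∈ F)
    (hbB : b ∈ B0) (hbB' : b' ∈ B0) (hbb : b ≠ b') (h1 : c ∈ AA I X0 B0 F b) :
    c ∉ AA I X0 B0 F b' := by
  intro h2
  rw [mem_AA] at h1 h2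
  obtain ⟨hc, hcB, p, hp, hpb, hpc⟩ := h1
  obtain ⟨-, -, q, hq, hqb, hqc⟩ := h2
  have hpq : p = q := uniq_X0 h.tw.p0 hcB hp hq hpc hqc
  subst hpq
  have hpS : p ∉ S := fun hS => h.hS p hS hp
  exact h.third hpS hb hb' hc hbb (fun e => hcB (e ▸ hbB)) (fun e => hcB (e ▸ hbB')) hpb hqb hpc

/-- counting the long blocks at the subplane elements of a long inner block -/
theorem Av.AA_count (h : Av I s X0 B0 X1 B1 S F) {b : B} (hb : b ∈ F) (hbB : b ∈ B0) :
    s + #(F ∩ B0) + #(AA I X0 B0 F b) ≤ ∑ p ∈ X0 with I p b, d I F p := by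
  have h1 : ∑ p ∈ X0 with I p b, d I F p = ∑ c ∈ F, #{p ∈ X0 | I p b ∧ I p c} := by
    unfold d
    simp_rw [Finset.card_filter]
    rw [Finset.sum_comm]
    apply Finset.sum_congr rfl
    intro c _
    rw [Finset.sum_filter]
    apply Finset.sum_congr rfl
    intro p _
    by_cases h2 : I p b <;> simp [h2]
  rw [h1]
  have h2 : ({b} : Finset B) ∪ ((F ∩ B0).erase b ∪ AA I X0 B0 F b) ⊆ F := by
    intro c hc
    rw [Finset.mem_union, Finset.mem_union, Finset.mem_singleton, Finset.mem_erase,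
      Finset.mem_inter, mem_AA] at hc
    rcases hc with rfl | h3 | h3
    · exact hb
    · exact h3.2.1
    · exact h3.1
  have h3 : Disjoint ({b} : Finset B) ((F ∩ B0).erase b ∪ AA I X0 B0 F b) := by
    rw [Finset.disjoint_singleton_left, Finset.mem_union, mem_AA]
    rintro (h4 | h4)
    · exact Finset.notMem_erase b _ h4
    · exact h4.2.1 hbB
  have h4 : Disjoint ((F ∩ B0).erase b) (AA I X0 B0 F b) := by
    rw [Finset.disjoint_left]
    intro c hc hc'
    rw [Finset.mem_erase, Finset.mem_inter] at hc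
    rw [mem_AA] at hc'
    exact hc'.2.1 hc.2.2
  refine le_trans ?_ (Finset.sum_le_sum_of_subset h2)
  rw [Finset.sum_union h3, Finset.sum_union h4, Finset.sum_singleton]
  have h5 : #{p ∈ X0 | I p b ∧ I p b} = s + 1 := by
    simp only [and_self]
    exact h.tw.p0.b1 b hbB
  have h6 : #((F ∩ B0).erase b) ≤ ∑ c ∈ (F ∩ B0).erase b, #{p ∈ X0 | I p b ∧ I p c} := by
    rw [Finset.card_eq_sum_ones]
    apply Finset.sum_le_sum
    intro c hc
    rw [Finset.mem_erase, Finset.mem_inter] at hc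
    obtain ⟨p, hp1, hp2⟩ := exists_meet h.tw.p0 (Ne.symm hc.1)
    rw [Nat.one_le_iff_ne_zero, Finset.card_ne_zero]
    exact ⟨p, by
      rw [Finset.mem_filter]
      exact ⟨meet_mem h.tw.p0 hbB hc.2.2 (Ne.symm hc.1) hp1 hp2, hp1, hp2⟩⟩
  have h7 : #(AA I X0 B0 F b) ≤ ∑ c ∈ AA I X0 B0 F b, #{p ∈ X0 | I p b ∧ I p c} := by
    rw [Finset.card_eq_sum_ones]
    apply Finset.sum_le_sum
    intro c hc
    rw [mem_AA] at hc
    obtain ⟨-, -, p, hp, hp1, hp2⟩ := hc
    rw [Nat.one_le_iff_ne_zero, Finset.card_ne_zero]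
    exact ⟨p, by rw [Finset.mem_filter]; exact ⟨hp, hp1, hp2⟩⟩
  have h8 : #((F ∩ B0).erase b) + 1 = #(F ∩ B0) :=
    Finset.card_erase_add_one (Finset.mem_inter.2 ⟨hb, hbB⟩)
  omega

theorem Av.d_le (h : Av I s X0 B0 X1 B1 S F) {p : X} (hp : p ∈ X0) : d I F p ≤ 2 := by
  have h4 := h.tw.dx p
  rw [if_neg (fun hS => h.hS p hS hp), if_pos hp, mul_zero, add_zero] at h4
  have : (d I F p : ℤ) ≤ 2 := by
    rw [h4]
    split_ifs <;> norm_num
  exact_mod_cast this

/-- at most two such blocks -/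
theorem Av.AA_le (h : Av I s X0 B0 X1 B1 S F) (hk : #(F ∩ B0) = s) {b : B} (hb : b ∈ F)
    (hbB : b ∈ B0) : #(AA I X0 B0 F b) ≤ 2 := by
  have h1 := h.AA_count hb hbB
  have h2 : ∑ p ∈ X0 with I p b, d I F p ≤ ∑ p ∈ X0 with I p b, 2 :=
    Finset.sum_le_sum fun p hp => h.d_le (Finset.mem_filter.1 hp).1
  rw [Finset.sum_const, h.tw.p0.b1 b hbB, smul_eq_mul] at h2
  omega

/-- at most one such block when the block contains a common element of the two subplanes -/
theorem Av.AA_le' (h : Av I s X0 B0 X1 B1 S F) (hk : #(F ∩ B0) = s) {b : B} (hb : b ∈ F)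
    (hbB : b ∈ B0) {q : X} (hq0 : q ∈ X0) (hq1 : q ∈ X1) (hqb : I q b) :
    #(AA I X0 B0 F b) ≤ 1 := by
  have h1 := h.AA_count hb hbB
  have hq : q ∈ ({p ∈ X0 | I p b} : Finset X) := by simp [hq0, hqb]
  rw [← Finset.add_sum_erase _ _ hq] at h1
  have h3 : d I F q ≤ 1 := by
    have h4 := h.tw.dx q
    rw [if_neg (fun hS => h.hS q hS hq0), if_pos hq0, if_pos hq1, mul_zero, add_zero] at h4
    have : (d I F q : ℤ) ≤ 1 := by rw [h4]; norm_num
    exact_mod_cast this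
  have h2 : ∑ p ∈ ({p ∈ X0 | I p b} : Finset X).erase q, d I F p ≤
      ∑ p ∈ ({p ∈ X0 | I p b} : Finset X).erase q, 2 :=
    Finset.sum_le_sum fun p hp => h.d_le (Finset.mem_filter.1 (Finset.mem_erase.1 hp).2).1
  rw [Finset.sum_const, smul_eq_mul] at h2
  have h4 : #(({p ∈ X0 | I p b} : Finset X).erase q) + 1 = s + 1 := by
    rw [Finset.card_erase_add_one hq]
    exact h.tw.p0.b1 b hbB
  omega

/-- The lone elements: on a common block of the subplanes, outside the second subplane. -/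
noncomputable def Lo (I : X → B → Prop) (B0 : Finset B) (X1 : Finset X) (B1 : Finset B)
    (S : Finset X) : Finset X := {x ∈ S | x ∉ X1 ∧ ∃ b ∈ B0 ∩ B1, I x b}

theorem mem_Lo {x : X} : x ∈ Lo I B0 X1 B1 S ↔ x ∈ S ∧ x ∉ X1 ∧ ∃ b ∈ B0 ∩ B1, I x b := by
  simp [Lo]

/-- for a lone element and a long inner block -/
theorem Av.exists_AA (h : Av I s X0 B0 X1 B1 S F) {x : X} (hx : x ∈ Lo I B0 X1 B1 S) {b : B}
    (hb : b ∈ F) (hbB : b ∈ B0) : ∃ c ∈ AA I X0 B0 F b, I x c := by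
  rw [mem_Lo] at hx
  obtain ⟨hxS, hx1, g, hg, hxg⟩ := hx
  rw [Finset.mem_inter] at hg
  have hx0 := h.hS x hxS
  have hgF : g ∉ F := fun hF => h.hF g hF hg.2
  have hxb : ¬ I x b := by
    intro h1
    exact hgF (uniq_B0 h.tw.p0 hx0 hbB hg.1 h1 hxg ▸ hb)
  by_contra hcon
  push Not at hcon
  -- every long block through `x` meets `b` in `S`
  have h1 : ∀ c ∈ ({c ∈ F | I x c} : Finset B), ∃ p, p ∈ S ∧ I p b ∧ I p c := by
    intro c hc
    rw [Finset.mem_filter] at hc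
    have hcb : c ≠ b := fun e => hxb (e ▸ hc.2)
    obtain ⟨p, hp1, hp2⟩ := exists_meet h.tw.p0 hcb
    refine ⟨p, ?_, hp2, hp1⟩
    by_contra hpS
    have h2 := h.two hpS hc.1 hb hcb hp1 hp2
    have hcB : c ∉ B0 := by
      intro hcB
      exact hgF (uniq_B0 h.tw.p0 hx0 hcB hg.1 hc.2 hxg ▸ hc.1)
    exact hcon c (mem_AA.2 ⟨hc.1, hcB, p, h2.1, hp2, hp1⟩) hc.2
  have : Nonempty X := ⟨x⟩
  choose! q hq using h1
  have h2 : #({c ∈ F | I x c} : Finset B) ≤ #({p ∈ S | I p b} : Finset X) := by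
    apply Finset.card_le_card_of_injOn q
    · intro c hc
      have := hq c hc
      simp only [Finset.coe_filter, Set.mem_setOf_eq]
      exact ⟨this.1, this.2.1⟩
    · intro c hc c' hc' hcc
      have e1 := hq c hc
      have e2 := hq c' hc'
      rw [Finset.mem_coe, Finset.mem_filter] at hc hc'
      rw [← hcc] at e2
      have hne : q c ≠ x := fun e => hxb (e ▸ e1.2.1)
      exact uniq_block h.tw.p0 hne e1.2.2 hc.2 e2.2.2 hc'.2
  have h3 := h.d_S hxS
  rw [if_neg hx1, sub_zero] at h3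
  have h4 := h.n_F hb
  rw [if_pos hbB] at h4
  unfold d at h3
  unfold n at h4
  have h5 : (#({c ∈ F | I x c} : Finset B) : ℤ) ≤ #({p ∈ S | I p b} : Finset X) := by
    exact_mod_cast h2
  linarith

theorem Av.Lo_le (h : Av I s X0 B0 X1 B1 S F) {b b' : B} (hb : b ∈ F) (hbB : b ∈ B0)
    (hb' : b' ∈ F) (hbB' : b' ∈ B0) (hbb : b ≠ b') :
    #(Lo I B0 X1 B1 S) ≤ #(AA I X0 B0 F b) * #(AA I X0 B0 F b') := by
  have h1 : ∀ x ∈ Lo I B0 X1 B1 S, ∃ e : B × B, e.1 ∈ AA I X0 B0 F b ∧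
      e.2 ∈ AA I X0 B0 F b' ∧ I x e.1 ∧ I x e.2 := by
    intro x hx
    obtain ⟨c, hc, hxc⟩ := h.exists_AA hx hb hbB
    obtain ⟨c', hc', hxc'⟩ := h.exists_AA hx hb' hbB'
    exact ⟨(c, c'), hc, hc', hxc, hxc'⟩
  have : Nonempty (B × B) := ⟨(b, b)⟩
  choose! e he using h1
  rw [← Finset.card_product]
  apply Finset.card_le_card_of_injOn e
  · intro x hx
    have := he x hx
    rw [Finset.mem_coe, Finset.mem_product]
    exact ⟨this.1, this.2.1⟩
  · intro x hx y hy hxy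
    have e1 := he x hx
    have e2 := he y hy
    rw [← hxy] at e2
    have hne : (e x).1 ≠ (e x).2 := by
      intro h3
      have h4 := h.AA_disj hb hb' hbB hbB' hbb e1.1
      rw [h3] at h4
      exact h4 e1.2.1
    exact uniq_elt h.tw.p0 hne e1.2.2.1 e1.2.2.2 e2.2.2.1 e2.2.2.2

end Pool.Agent.Helper9.BS
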