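import Pool.Agent.Helper28.Baer.Trans

/-!
# Critical sets (MP_06d6b9_co): the second Baer subplane, definitions and moments
-/

set_option autoImplicit false
set_option linter.unusedSectionVars false

open Finset
open scoped Classical

namespace Pool.Agent.Helper9.BS

open Pool.Agent.Helper28.Baer

variable {X B : Type*} [Fintype X] [Fintype B]
variable {I : X → B → Prop} {s : ℕ} {X0 : Finset X} {B0 : Finset B} {S : Finset X}

/-- The dual of a plane with a Baer subplane. -/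
theorem dual (h : Pl I s X0 B0) (hX : Fintype.card X = s ^ 4 + s ^ 2 + 1) :
    Pl (fun b x => I x b) s B0 X0 where
  join := h.meet
  meet := h.join
  degX := h.degB
  degB := h.degX
  x0 := h.b0
  x1 := h.b1
  b0 := h.x0
  b1 := h.x1
  cardX0 := h.cardB0
  cardB0 := h.cardX0
  cardB := hX

/-- The number of blocks of `C` through `x`. -/
noncomputable def d (I : X → B → Prop) (C : Finset B) (x : X) : ℕ := #{b ∈ C | I x b}

theorem d_eq (C : Finset B) (x : X) : d I C x = n (fun b x => I x b) C x := rfl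

theorem sum_d (h : Pl I s X0 B0) (hX : Fintype.card X = s ^ 4 + s ^ 2 + 1) (C : Finset B) :
    ∑ x, (d I C x : ℤ) = #C * ((s : ℤ) ^ 2 + 1) :=
  sum_n (dual h hX) C

theorem sum_d_sq (h : Pl I s X0 B0) (hX : Fintype.card X = s ^ 4 + s ^ 2 + 1) (C : Finset B) :
    ∑ x, (d I C x : ℤ) * d I C x = #C * (#C + (s : ℤ) ^ 2) :=
  sum_n_sq (dual h hX) C

theorem sum_d_pts (h : Pl I s X0 B0) (hX : Fintype.card X = s ^ 4 + s ^ 2 + 1) (C : Finset B)
    (b : B) : ∑ x ∈ pts I b, (d I C x : ℤ) = #C + if b ∈ C then (s : ℤ) ^ 2 else 0 := by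
  have h1 := sum_n_T (dual h hX) C b
  exact h1

/-- The long blocks. -/
noncomputable def FF (I : X → B → Prop) (s : ℕ) (S : Finset X) : Finset B := {b | s ≤ n I S b}

/-- The blocks of the second subplane. -/
noncomputable def BB (I : X → B → Prop) (s : ℕ) (B0 : Finset B) (S : Finset X) : Finset B :=
  {b | (b ∉ B0 ∧ (n I S b = 2 ∨ n I S b = s + 2)) ∨ (b ∈ B0 ∧ (n I S b = 1 ∨ n I S b = s + 1))}

theorem mem_FF {b : B} : b ∈ FF I s S ↔ s ≤ n I S b := by simp [FF]

theorem mem_BB {b : B} : b ∈ BB I s B0 S ↔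
    (b ∉ B0 ∧ (n I S b = 2 ∨ n I S b = s + 2)) ∨ (b ∈ B0 ∧ (n I S b = 1 ∨ n I S b = s + 1)) := by
  simp [BB]

/-- The basic identity on the blocks. -/
theorem n_eq (h : Crit I s X0 B0 S) (b : B) : (n I S b : ℤ) =
    1 + s * (if b ∈ FF I s S then 1 else 0) + (if b ∈ BB I s B0 S then 1 else 0) -
      (if b ∈ B0 then 1 else 0) := by
  have hs := h.hs
  by_cases hb : b ∈ B0
  · rcases size_B h hb with h1 | h1 | h1 | h1
    · have h2 : b ∉ FF I s S := by rw [mem_FF]; omega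
      have h3 : b ∉ BB I s B0 S := by
        rw [mem_BB]; rintro (⟨h4, -⟩ | ⟨-, h4⟩)
        · exact h4 hb
        · omega
      rw [if_pos hb, if_neg h2, if_neg h3, h1]; simp
    · have h2 : b ∉ FF I s S := by rw [mem_FF]; omega
      have h3 : b ∈ BB I s B0 S := by rw [mem_BB]; right; exact ⟨hb, by omega⟩
      rw [if_pos hb, if_neg h2, if_pos h3, h1]; simp
    · have h2 : b ∈ FF I s S := by rw [mem_FF]; omega
      have h3 : b ∉ BB I s B0 S := by
        rw [mem_BB]; rintro (⟨h4, -⟩ | ⟨-, h4⟩)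
        · exact h4 hb
        · omega
      rw [if_pos hb, if_pos h2, if_neg h3, h1]; simp
    · have h2 : b ∈ FF I s S := by rw [mem_FF]; omega
      have h3 : b ∈ BB I s B0 S := by rw [mem_BB]; right; exact ⟨hb, by omega⟩
      rw [if_pos hb, if_pos h2, if_pos h3, h1]; push_cast; ring
  · rcases size_N h hb with h1 | h1 | h1 | h1
    · have h2 : b ∉ FF I s S := by rw [mem_FF]; omega
      have h3 : b ∉ BB I s B0 S := by
        rw [mem_BB]; rintro (⟨-, h4⟩ | ⟨h4, -⟩)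
        · omega
        · exact hb h4
      rw [if_neg hb, if_neg h2, if_neg h3, h1]; simp
    · have h2 : b ∉ FF I s S := by rw [mem_FF]; omega
      have h3 : b ∈ BB I s B0 S := by rw [mem_BB]; left; exact ⟨hb, by omega⟩
      rw [if_neg hb, if_neg h2, if_pos h3, h1]; norm_num
    · have h2 : b ∈ FF I s S := by rw [mem_FF]; omega
      have h3 : b ∉ BB I s B0 S := by
        rw [mem_BB]; rintro (⟨-, h4⟩ | ⟨h4, -⟩)
        · omega
        · exact hb h4
      rw [if_neg hb, if_pos h2, if_neg h3, h1]; push_cast; ring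
    · have h2 : b ∈ FF I s S := by rw [mem_FF]; omega
      have h3 : b ∈ BB I s B0 S := by rw [mem_BB]; left; exact ⟨hb, by omega⟩
      rw [if_neg hb, if_pos h2, if_pos h3, h1]; push_cast; ring

theorem sum_T_ind (C : Finset B) (x : X) :
    ∑ b ∈ T I x, (if b ∈ C then (1 : ℤ) else 0) = d I C x := by
  rw [← Finset.sum_filter, Finset.sum_const, nsmul_eq_mul, mul_one]
  unfold d
  congr 2
  ext b
  simp [mem_T, and_comm]

/-- The correction at a point. -/
noncomputable def yy (I : X → B → Prop) (s : ℕ) (X0 : Finset X) (S : Finset X) (x : X) : ℤ :=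
  1 + s * (if x ∈ S then 1 else 0) + (if x ∈ X0 then 1 else 0) - d I (FF I s S) x

/-- The basic identity on the points. -/
theorem d_BB (h : Crit I s X0 B0 S) (x : X) :
    (d I (BB I s B0 S) x : ℤ) = 1 + s * yy I s X0 S x := by
  have h1 := sum_n_T h.pl S x
  rw [Finset.sum_congr rfl (fun b _ => n_eq h b), Finset.sum_sub_distrib, Finset.sum_add_distrib,
    Finset.sum_add_distrib, ← Finset.mul_sum, sum_T_ind, sum_T_ind, sum_T_ind, Finset.sum_const,
    card_T h.pl, h.card] at h1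
  have h2 : (d I B0 x : ℤ) = 1 + s * (if x ∈ X0 then 1 else 0) := by
    unfold d
    split_ifs with hx
    · rw [h.pl.x1 x hx]; push_cast; ring
    · rw [h.pl.x0 x hx]; simp
  rw [h2] at h1
  unfold yy
  simp only [nsmul_eq_mul, mul_one] at h1
  push_cast at h1
  split_ifs at h1 ⊢ <;> linear_combination h1

theorem yy_nonneg (h : Crit I s X0 B0 S) (x : X) : 0 ≤ yy I s X0 S x := by
  have h1 := d_BB h x
  have hs : (20 : ℤ) ≤ s := by exact_mod_cast h.hs
  by_contra hcon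
  push Not at hcon
  have h2 : yy I s X0 S x ≤ -1 := by omega
  have h3 : (0 : ℤ) ≤ d I (BB I s B0 S) x := by positivity
  nlinarith

theorem sum_yy (h : Crit I s X0 B0 S) (hX : Fintype.card X = s ^ 4 + s ^ 2 + 1) :
    (s : ℤ) * ∑ x, yy I s X0 S x =
      #(BB I s B0 S) * ((s : ℤ) ^ 2 + 1) - ((s : ℤ) ^ 4 + s ^ 2 + 1) := by
  have h1 := sum_d h.pl hX (BB I s B0 S)
  rw [Finset.sum_congr rfl (fun x _ => d_BB h x), Finset.sum_add_distrib, ← Finset.mul_sum,
    Finset.sum_const, Finset.card_univ, hX] at h1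
  simp only [nsmul_eq_mul, mul_one] at h1
  push_cast at h1
  linear_combination h1

theorem sum_yy_sq (h : Crit I s X0 B0 S) (hX : Fintype.card X = s ^ 4 + s ^ 2 + 1) :
    (s : ℤ) ^ 2 * ∑ x, yy I s X0 S x * (yy I s X0 S x - 1) =
      (#(BB I s B0 S) - ((s : ℤ) ^ 2 + s + 1)) * (#(BB I s B0 S) - ((s : ℤ) ^ 3 + 1)) := by
  have h1 := sum_d_sq h.pl hX (BB I s B0 S)
  have h2 := sum_yy h hX
  have h3 : ∀ x, (d I (BB I s B0 S) x : ℤ) * d I (BB I s B0 S) x =
      1 + (2 * s + s ^ 2) * yy I s X0 S x + s ^ 2 * (yy I s X0 S x * (yy I s X0 S x - 1)) := by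
    intro x
    rw [d_BB h x]
    ring
  rw [Finset.sum_congr rfl (fun x _ => h3 x), Finset.sum_add_distrib, Finset.sum_add_distrib,
    ← Finset.mul_sum, ← Finset.mul_sum, Finset.sum_const, Finset.card_univ, hX] at h1
  simp only [nsmul_eq_mul, mul_one] at h1
  push_cast at h1
  linear_combination h1 - (2 + (s : ℤ)) * h2

theorem card_two (h : Crit I s X0 B0 S) :
    ((s : ℤ) - 1) * #{b | b ∉ B0 ∧ n I S b = 2} ≤ (s + 1) * ((zc I S : ℤ) + yc I s S) := by
  have hs := h.hs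
  rw [← sum_cost h, mul_comm, ← nsmul_eq_mul, ← Finset.sum_const]
  calc ∑ b with b ∉ B0 ∧ n I S b = 2, ((s : ℤ) - 1)
      ≤ ∑ b with b ∉ B0 ∧ n I S b = 2, cost I s S b := by
        apply Finset.sum_le_sum
        intro b hb
        simp only [Finset.mem_filter_univ] at hb
        rw [cost_eq (by omega) (by omega), hb.2]
        push_cast
        linarith
    _ ≤ ∑ b, cost I s S b :=
        Finset.sum_le_sum_of_subset_of_nonneg (Finset.subset_univ _)
          fun b _ _ => cost_nonneg h b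

theorem card_BB_lt (h : Crit I s X0 B0 S) : (#(BB I s B0 S) : ℤ) < (s : ℤ) ^ 3 + 1 := by
  have hs : (20 : ℤ) ≤ s := by exact_mod_cast h.hs
  have h1 := card_two h
  have h2 := zc_le h
  have h3 := three_yc_le h
  have h4 : #(BB I s B0 S) ≤ #{b | b ∉ B0 ∧ n I S b = 2} + yc I s S + #B0 := by
    have h5 : BB I s B0 S ⊆ ({b | b ∉ B0 ∧ n I S b = 2} : Finset B) ∪
        ({b | n I S b = s + 2} : Finset B) ∪ B0 := by
      intro b hb
      rw [mem_BB] at hb
      simp only [Finset.mem_union, Finset.mem_filter_univ]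
      tauto
    have h6 := (Finset.card_le_card h5).trans ((Finset.card_union_le _ _).trans
      (Nat.add_le_add_right (Finset.card_union_le _ _) _))
    exact h6
  rw [h.pl.cardB0] at h4
  have h5 : (#(BB I s B0 S) : ℤ) ≤
      #{b | b ∉ B0 ∧ n I S b = 2} + (yc I s S : ℤ) + ((s : ℤ) ^ 2 + s + 1) := by
    exact_mod_cast h4
  set p : ℤ := (#{b | b ∉ B0 ∧ n I S b = 2} : ℤ) with hp
  set z : ℤ := (zc I S : ℤ) with hz
  set y : ℤ := (yc I s S : ℤ) with hy
  have h6 : 3 * (((s : ℤ) - 1) * p) ≤ (s + 1) * (4 * ((s : ℤ) ^ 2 + s + 1)) := by nlinarith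
  by_contra hcon
  push Not at hcon
  have h7 : (s : ℤ) ^ 3 + 1 ≤ p + y + ((s : ℤ) ^ 2 + s + 1) := hcon.trans h5
  have h8 : 3 * (s : ℤ) ^ 3 ≤ 3 * p + 4 * ((s : ℤ) ^ 2 + s + 1) := by linarith
  have h9 : (s - 1 : ℤ) * (3 * (s : ℤ) ^ 3) ≤
      (s - 1) * (3 * p + 4 * ((s : ℤ) ^ 2 + s + 1)) :=
    mul_le_mul_of_nonneg_left h8 (by linarith)
  have h10 : (s - 1 : ℤ) * (3 * (s : ℤ) ^ 3) ≤ 8 * s * ((s : ℤ) ^ 2 + s + 1) := by nlinarith
  have h11 : 0 ≤ ((s : ℤ) - 20) * s ^ 3 := mul_nonneg (by linarith) (by positivity)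
  have h12 : 0 ≤ ((s : ℤ) - 20) * s ^ 2 := mul_nonneg (by linarith) (by positivity)
  have h13 : 0 ≤ ((s : ℤ) - 20) * s := mul_nonneg (by linarith) (by positivity)
  nlinarith

/-- The number of blocks in the second subplane. -/
theorem card_BB_cases (h : Crit I s X0 B0 S) (hX : Fintype.card X = s ^ 4 + s ^ 2 + 1) :
    (#(BB I s B0 S) : ℤ) = (s : ℤ) ^ 2 + 1 ∨ (#(BB I s B0 S) : ℤ) = (s : ℤ) ^ 2 + s + 1 := by
  have hs : (20 : ℤ) ≤ s := by exact_mod_cast h.hs
  have h1 := sum_yy h hX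
  have h2 := sum_yy_sq h hX
  have h3 := card_BB_lt h
  set L : ℤ := (#(BB I s B0 S) : ℤ) with hL
  have h4 : 0 ≤ ∑ x, yy I s X0 S x := Finset.sum_nonneg fun x _ => yy_nonneg h x
  have h5 : 0 ≤ ∑ x, yy I s X0 S x * (yy I s X0 S x - 1) := by
    apply Finset.sum_nonneg
    intro x _
    have h6 := yy_nonneg h x
    rcases h6.eq_or_lt with h7 | h7
    · rw [← h7]; simp
    · exact mul_nonneg h6 (by omega)
  set Y : ℤ := ∑ x, yy I s X0 S x with hY
  set Z : ℤ := ∑ x, yy I s X0 S x * (yy I s X0 S x - 1) with hZ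
  have h6 : L ≤ (s : ℤ) ^ 2 + s + 1 := by
    by_contra hcon
    push Not at hcon
    have h7 : 0 < (L - ((s : ℤ) ^ 2 + s + 1)) * (((s : ℤ) ^ 3 + 1) - L) :=
      mul_pos (by linarith) (by linarith)
    have h8 : 0 ≤ (s : ℤ) ^ 2 * Z := by positivity
    nlinarith
  have h7 : (s : ℤ) ^ 2 + 1 ≤ L := by
    by_contra hcon
    push Not at hcon
    have h8 : L ≤ (s : ℤ) ^ 2 := by omega
    have h9 : L * ((s : ℤ) ^ 2 + 1) ≤ (s : ℤ) ^ 2 * ((s : ℤ) ^ 2 + 1) :=
      mul_le_mul_of_nonneg_right h8 (by positivity)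
    have h10 : 0 ≤ (s : ℤ) * Y := by positivity
    nlinarith
  have h8 : (s : ℤ) ∣ L - ((s : ℤ) ^ 2 + 1) := by
    refine ⟨Y - s * L + (s : ℤ) ^ 3, ?_⟩
    linear_combination -h1
  obtain ⟨k, hk⟩ := h8
  have h9 : 0 ≤ k := by
    by_contra hcon
    push Not at hcon
    nlinarith
  have h10 : k ≤ 1 := by
    by_contra hcon
    push Not at hcon
    have h11 : 2 ≤ k := hcon
    nlinarith
  have h11 : k = 0 ∨ k = 1 := by omega
  rcases h11 with h11 | h11
  · left; rw [h11] at hk; linarith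
  · right; rw [h11] at hk; linarith

end Pool.Agent.Helper9.BS
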