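import Pool.Agent.Helper9.BS.Types

/-!
# Twisted pairs of Baer subplanes (MP_06d6b9_co): the critical set, abstract form
-/

set_option autoImplicit false
set_option linter.unusedSectionVars false

open Finset
open scoped Classical

namespace Pool.Agent.Helper9.BS

open Pool.Agent.Helper28.Baer

variable {X B : Type*} [Fintype X] [Fintype B]
variable {I : X → B → Prop} {s : ℕ} {X0 : Finset X} {B0 : Finset B} {S : Finset X}
  {X1 : Finset X} {B1 : Finset B} {F : Finset B}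

/-- Abstract form of the theorem. -/
theorem main (pl : Pl I s X0 B0) (hX : Fintype.card X = s ^ 4 + s ^ 2 + 1) (hs : 20 ≤ s)
    (S : Finset X) (hS : #S ≤ s ^ 2 + s + 1) (hblk : ∀ b ∉ B0, 1 ≤ n I S b)
    (hmiss : ∃ b, n I S b = 0) :
    ∃ X1 B1 F, Tw I s X0 B0 X1 B1 S F ∧
      ((#(B0 ∩ B1) = 1 ∧ zc I S + 1 = s ^ 2 ∧ #(S ∩ X0) ≤ 1 ∧
        #(F ∩ B0) = #(S ∩ X0) + s + 1) ∨
      (#(B0 ∩ B1) = s + 1 ∧ (zc I S + s = s ^ 2 ∨ zc I S + s + 1 = s ^ 2) ∧ #(S ∩ X0) ≤ 2 ∧
        #(F ∩ B0) = #(S ∩ X0) + s)) := by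
  obtain ⟨g, hg⟩ := hmiss
  have hgB : g ∈ B0 := by
    by_contra hgN
    have := hblk g hgN
    omega
  rcases main_abs pl hX hs S hS hblk with h | ⟨h, -⟩
  · have := h g
    omega
  · have hC : Crit I s X0 B0 S := ⟨pl, hs, h, hblk, g, hgB, hg⟩
    have hT := tw_of_crit hC hX
    exact ⟨_, _, _, hT, types hC hT⟩

section Plane

open Configuration

variable {P L : Type*} [Fintype P] [Fintype L] [Membership P L] [ProjectivePlane P L]

theorem subplane_of_pl {s : ℕ} {P1 : Finset P} {L1 : Finset L} (hs : 1 ≤ s)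
    (h : Pl (fun (l : L) (p : P) => p ∈ l) s L1 P1) : IsSubplane s P1 L1 where
  nonempty := by
    rw [← Finset.card_pos, h.cardB0]
    positivity
  join p hp q hq hpq := by
    obtain ⟨l, hl1, hl2⟩ := exists_meet h hpq
    refine ⟨l, ?_, hl1, hl2⟩
    by_contra hl
    have h1 := h.x0 l hl
    have h2 : 1 < #{b ∈ P1 | b ∈ l} := by
      rw [Finset.one_lt_card]
      exact ⟨p, by simp [hp, hl1], q, by simp [hq, hl2], hpq⟩
    omega
  meet l hl m hm hlm := by
    obtain ⟨p, hp1, hp2⟩ := exists_join h hlm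
    refine ⟨p, ?_, hp1, hp2⟩
    by_contra hp
    have h1 := h.b0 p hp
    have h2 : 1 < #{l ∈ L1 | p ∈ l} := by
      rw [Finset.one_lt_card]
      exact ⟨l, by simp [hl, hp1], m, by simp [hm, hp2], hlm⟩
    omega
  points := h.x1
  lines := h.b1

end Plane

end Pool.Agent.Helper9.BS
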