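import Pool.Agent.Helper9.BS.Base

/-!
# Critical sets (MP_06d6b9_co): the second Baer subplane
-/

set_option autoImplicit false
set_option linter.unusedSectionVars false

open Finset
open scoped Classical

namespace Pool.Agent.Helper9.BS

open Pool.Agent.Helper28.Baer

variable {X B : Type*} [Fintype X] [Fintype B]
variable {I : X → B → Prop} {s : ℕ} {X0 : Finset X} {B0 : Finset B} {S : Finset X}

/-- The set of blocks of the second subplane is not a pencil. -/
theorem card_BB_ne (h : Crit I s X0 B0 S) (hX : Fintype.card X = s ^ 4 + s ^ 2 + 1) :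
    (#(BB I s B0 S) : ℤ) ≠ (s : ℤ) ^ 2 + 1 := by
  intro hL
  have hs : (20 : ℤ) ≤ s := by exact_mod_cast h.hs
  have hs0 : (s : ℤ) ≠ 0 := by linarith
  have h1 := sum_yy h hX
  have h2 := sum_yy_sq h hX
  rw [hL] at h1 h2
  have hY : ∑ x, yy I s X0 S x = s := by
    have h3 : (s : ℤ) * ∑ x, yy I s X0 S x = s * s := by rw [h1]; ring
    exact mul_left_cancel₀ hs0 h3
  have hZ : ∑ x, yy I s X0 S x * (yy I s X0 S x - 1) = s * (s - 1) := by
    have h3 : (s : ℤ) ^ 2 * ∑ x, yy I s X0 S x * (yy I s X0 S x - 1) =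
        (s : ℤ) ^ 2 * (s * (s - 1)) := by rw [h2]; ring
    exact mul_left_cancel₀ (pow_ne_zero 2 hs0) h3
  have hle : ∀ x, yy I s X0 S x ≤ s := by
    intro x
    rw [← hY]
    exact Finset.single_le_sum (f := fun x => yy I s X0 S x) (fun x _ => yy_nonneg h x)
      (Finset.mem_univ x)
  have h0 : ∑ x, yy I s X0 S x * (s - yy I s X0 S x) = 0 := by
    have h3 : ∀ x, yy I s X0 S x * (s - yy I s X0 S x) =
        (s - 1) * yy I s X0 S x - yy I s X0 S x * (yy I s X0 S x - 1) := by intro x; ring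
    rw [Finset.sum_congr rfl (fun x _ => h3 x), Finset.sum_sub_distrib, ← Finset.mul_sum, hY, hZ]
    ring
  have h3 := (Finset.sum_eq_zero_iff_of_nonneg (fun x _ =>
    mul_nonneg (yy_nonneg h x) (sub_nonneg.2 (hle x)))).1 h0
  obtain ⟨x0, hx0⟩ : ∃ x, yy I s X0 S x ≠ 0 := by
    by_contra hcon
    push Not at hcon
    rw [Finset.sum_congr rfl (fun x _ => hcon x)] at hY
    simp only [Finset.sum_const_zero] at hY
    exact hs0 hY.symm
  have hyx : yy I s X0 S x0 = s := by
    have h4 := h3 x0 (Finset.mem_univ _)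
    rcases mul_eq_zero.1 h4 with h5 | h5
    · exact absurd h5 hx0
    · linarith
  have hd := d_BB h x0
  rw [hyx] at hd
  have hd' : #({b ∈ BB I s B0 S | I x0 b} : Finset B) = s ^ 2 + 1 := by
    have : (d I (BB I s B0 S) x0 : ℤ) = ((s ^ 2 + 1 : ℕ) : ℤ) := by rw [hd]; push_cast; ring
    exact_mod_cast this
  have hL' : #(BB I s B0 S) = s ^ 2 + 1 := by exact_mod_cast hL
  have e1 : ({b ∈ BB I s B0 S | I x0 b} : Finset B) = BB I s B0 S :=
    Finset.eq_of_subset_of_card_le (Finset.filter_subset _ _) (by rw [hd', hL'])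
  have e2 : ({b ∈ BB I s B0 S | I x0 b} : Finset B) = T I x0 := by
    apply Finset.eq_of_subset_of_card_le
    · intro b hb
      rw [mem_T]
      exact (Finset.mem_filter.1 hb).2
    · rw [hd', card_T h.pl]
  have hiff : ∀ b, b ∈ BB I s B0 S ↔ I x0 b := by
    intro b
    rw [← e1, e2, mem_T]
  have hx0S : x0 ∈ S := by
    by_contra hn
    unfold yy at hyx
    rw [if_neg hn] at hyx
    have h4 : (0 : ℤ) ≤ d I (FF I s S) x0 := by positivity
    split_ifs at hyx <;> linarith
  obtain ⟨g, hg, hg0⟩ := h.miss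
  have hn : ∀ b, (n I S b : ℤ) = n I (S.erase x0) b + if I x0 b then 1 else 0 := by
    intro b
    have h4 := n_insert (I := I) (S := S.erase x0) (x := x0) (Finset.notMem_erase x0 S) b
    rw [Finset.insert_erase hx0S] at h4
    rw [h4]
    push_cast
    rfl
  refine (SubC.mk (I := I) (s := s) (X0 := X0) (B0 := B0) (S := S.erase x0) (g := g) h.pl hX h.hs
    ?_ ?_ hg ?_).false
  · rw [Finset.card_erase_of_mem hx0S, h.card]
    simp
  · intro b hb
    have h4 := n_eq h b
    have h5 := hn b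
    rw [if_neg hb] at h4
    have h6 : (if b ∈ BB I s B0 S then (1 : ℤ) else 0) = if I x0 b then 1 else 0 := by
      simp only [hiff b]
    rw [h6, h5] at h4
    have h7 : (n I (S.erase x0) b : ℤ) = 1 + s * (if b ∈ FF I s S then 1 else 0) := by
      linarith
    have h8 : (1 : ℤ) ≤ n I (S.erase x0) b := by
      rw [h7]
      split_ifs <;> linarith
    exact_mod_cast h8
  · have h4 := n_mono (I := I) (Finset.erase_subset x0 S) g
    omega

theorem card_BB (h : Crit I s X0 B0 S) (hX : Fintype.card X = s ^ 4 + s ^ 2 + 1) :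
    (#(BB I s B0 S) : ℤ) = (s : ℤ) ^ 2 + s + 1 :=
  (card_BB_cases h hX).resolve_left (card_BB_ne h hX)

/-- The elements of the second subplane. -/
noncomputable def XX (I : X → B → Prop) (s : ℕ) (B0 : Finset B) (S : Finset X) : Finset X :=
  {x | d I (BB I s B0 S) x = s + 1}

theorem mem_XX {x : X} : x ∈ XX I s B0 S ↔ d I (BB I s B0 S) x = s + 1 := by simp [XX]

theorem yy_eq (h : Crit I s X0 B0 S) (hX : Fintype.card X = s ^ 4 + s ^ 2 + 1) (x : X) :
    yy I s X0 S x = if x ∈ XX I s B0 S then 1 else 0 := by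
  have hs : (20 : ℤ) ≤ s := by exact_mod_cast h.hs
  have h2 := sum_yy_sq h hX
  rw [card_BB h hX, sub_self, zero_mul] at h2
  have h3 : ∑ x, yy I s X0 S x * (yy I s X0 S x - 1) = 0 := by
    rcases mul_eq_zero.1 h2 with h4 | h4
    · exact absurd h4 (pow_ne_zero 2 (by linarith))
    · exact h4
  have h4 := (Finset.sum_eq_zero_iff_of_nonneg (fun x _ => by
    have h6 := yy_nonneg h x
    rcases h6.eq_or_lt with h7 | h7
    · rw [← h7]; simp
    · exact mul_nonneg h6 (by omega))).1 h3 x (Finset.mem_univ x)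
  have h5 := d_BB h x
  rcases mul_eq_zero.1 h4 with h6 | h6
  · rw [if_neg, h6]
    rw [mem_XX]
    intro h7
    rw [h6, h7] at h5
    push_cast at h5
    linarith
  · have h7 : yy I s X0 S x = 1 := by linarith
    rw [if_pos, h7]
    rw [mem_XX]
    rw [h7] at h5
    have : (d I (BB I s B0 S) x : ℤ) = ((s + 1 : ℕ) : ℤ) := by rw [h5]; push_cast; ring
    exact_mod_cast this

/-- The second subplane. -/
theorem pl_second (h : Crit I s X0 B0 S) (hX : Fintype.card X = s ^ 4 + s ^ 2 + 1) :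
    Pl I s (XX I s B0 S) (BB I s B0 S) := by
  have hs : (20 : ℤ) ≤ s := by exact_mod_cast h.hs
  have hs0 : (s : ℤ) ≠ 0 := by linarith
  have hL := card_BB h hX
  have hm : ∀ b, (#{x ∈ XX I s B0 S | I x b} : ℤ) =
      1 + s * (if b ∈ BB I s B0 S then 1 else 0) := by
    intro b
    have h1 := sum_d_pts h.pl hX (BB I s B0 S) b
    have h2 : ∀ x ∈ pts I b, (d I (BB I s B0 S) x : ℤ) =
        1 + s * (if x ∈ XX I s B0 S then 1 else 0) := by
      intro x _
      rw [d_BB h x, yy_eq h hX x]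
    rw [Finset.sum_congr rfl h2, Finset.sum_add_distrib, ← Finset.mul_sum, Finset.sum_const,
      card_pts h.pl, ← Finset.sum_filter, Finset.sum_const, hL] at h1
    have h3 : ({x ∈ pts I b | x ∈ XX I s B0 S} : Finset X) =
        ({x ∈ XX I s B0 S | I x b} : Finset X) := by
      ext x; simp [mem_pts, and_comm]
    rw [h3] at h1
    simp only [nsmul_eq_mul, mul_one] at h1
    push_cast at h1
    apply mul_left_cancel₀ hs0
    split_ifs at h1 ⊢ <;> linear_combination h1
  refine ⟨h.pl.join, h.pl.meet, h.pl.degX, h.pl.degB, ?_, ?_, ?_, ?_, ?_, ?_, h.pl.cardB⟩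
  · intro x hx
    have h1 := d_BB h x
    rw [yy_eq h hX x, if_neg hx, mul_zero, add_zero] at h1
    exact_mod_cast h1
  · intro x hx
    exact mem_XX.1 hx
  · intro b hb
    have h1 := hm b
    rw [if_neg hb, mul_zero, add_zero] at h1
    exact_mod_cast h1
  · intro b hb
    have h1 := hm b
    rw [if_pos hb, mul_one, add_comm] at h1
    exact_mod_cast h1
  · have h1 := sum_yy h hX
    rw [Finset.sum_congr rfl (fun x _ => yy_eq h hX x), ← Finset.sum_filter, Finset.sum_const,
      Finset.filter_mem_eq_inter, Finset.univ_inter, hL] at h1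
    simp only [nsmul_eq_mul, mul_one] at h1
    have h2 : (#(XX I s B0 S) : ℤ) = (s : ℤ) ^ 2 + s + 1 := by
      apply mul_left_cancel₀ hs0
      rw [h1]; ring
    exact_mod_cast h2
  · exact_mod_cast hL

/-- A twisted pair: two Baer subplanes and two sets with their incidence numbers. -/
structure Tw (I : X → B → Prop) (s : ℕ) (X0 : Finset X) (B0 : Finset B) (X1 : Finset X)
    (B1 : Finset B) (S : Finset X) (F : Finset B) : Prop where
  p0 : Pl I s X0 B0
  p1 : Pl I s X1 B1
  cardX : Fintype.card X = s ^ 4 + s ^ 2 + 1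
  cS : #S = s ^ 2 + s + 1
  cF : #F = s ^ 2 + s + 1
  nb : ∀ b, (n I S b : ℤ) = 1 + s * (if b ∈ F then 1 else 0) + (if b ∈ B1 then 1 else 0) -
    (if b ∈ B0 then 1 else 0)
  dx : ∀ x, (d I F x : ℤ) = 1 + s * (if x ∈ S then 1 else 0) + (if x ∈ X0 then 1 else 0) -
    (if x ∈ X1 then 1 else 0)

theorem tw_of_crit (h : Crit I s X0 B0 S) (hX : Fintype.card X = s ^ 4 + s ^ 2 + 1) :
    Tw I s X0 B0 (XX I s B0 S) (BB I s B0 S) S (FF I s S) := by
  have hp1 := pl_second h hX
  have hdx : ∀ x, (d I (FF I s S) x : ℤ) = 1 + s * (if x ∈ S then 1 else 0) +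
      (if x ∈ X0 then 1 else 0) - (if x ∈ XX I s B0 S then 1 else 0) := by
    intro x
    have h1 := yy_eq h hX x
    unfold yy at h1
    linarith
  refine ⟨h.pl, hp1, hX, h.card, ?_, n_eq h, hdx⟩
  have h1 := sum_d h.pl hX (FF I s S)
  rw [Finset.sum_congr rfl (fun x _ => hdx x), Finset.sum_sub_distrib, Finset.sum_add_distrib,
    Finset.sum_add_distrib, ← Finset.mul_sum, ← Finset.sum_filter, ← Finset.sum_filter,
    ← Finset.sum_filter] at h1
  simp only [Finset.sum_const, Finset.filter_mem_eq_inter, Finset.univ_inter, nsmul_eq_mul,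
    mul_one, Finset.card_univ, hX, h.card, h.pl.cardX0, hp1.cardX0] at h1
  push_cast at h1
  have h2 : (#(FF I s S) : ℤ) = (s : ℤ) ^ 2 + s + 1 := by
    apply mul_right_cancel₀ (b := (s : ℤ) ^ 2 + 1) (by positivity)
    rw [← h1]; ring
  exact_mod_cast h2


end Pool.Agent.Helper9.BS
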