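import Pool.Agent.Helper9.BS.Second

/-!
# Twisted pairs of Baer subplanes (MP_06d6b9_co): the numbers
-/

set_option autoImplicit false
set_option linter.unusedSectionVars false

open Finset
open scoped Classical

namespace Pool.Agent.Helper9.BS

open Pool.Agent.Helper28.Baer

variable {X B : Type*} [Fintype X] [Fintype B]
variable {I : X → B → Prop} {s : ℕ} {X0 : Finset X} {B0 : Finset B} {S : Finset X}
  {X1 : Finset X} {B1 : Finset B} {F : Finset B}

theorem Tw.dual (h : Tw I s X0 B0 X1 B1 S F) : Tw (fun b x => I x b) s B1 X1 B0 X0 F S where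
  p0 := Helper9.BS.dual h.p1 h.cardX
  p1 := Helper9.BS.dual h.p0 h.cardX
  cardX := h.p0.cardB
  cS := h.cF
  cF := h.cS
  nb := h.dx
  dx := h.nb

theorem sum_ind {α : Type*} (A C : Finset α) :
    ∑ x ∈ A, (if x ∈ C then (1 : ℤ) else 0) = #(A ∩ C) := by
  rw [← Finset.sum_filter, Finset.sum_const, Finset.filter_mem_eq_inter]
  simp

theorem Tw.r1 (h : Tw I s X0 B0 X1 B1 S F) :
    (s : ℤ) ^ 2 + s + 1 + s * #(S ∩ X0) = s * #(F ∩ B0) + #(B0 ∩ B1) := by
  have h1 := sum_n_B0 h.p0 S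
  rw [Finset.sum_congr rfl (fun b _ => h.nb b), Finset.sum_sub_distrib, Finset.sum_add_distrib,
    Finset.sum_add_distrib, ← Finset.mul_sum, sum_ind, sum_ind, sum_ind, Finset.sum_const, h.cS,
    h.p0.cardB0, Finset.inter_self, h.p0.cardB0, Finset.inter_comm B0 F] at h1
  simp only [nsmul_eq_mul, mul_one] at h1
  push_cast at h1
  linear_combination -h1

theorem Tw.r2 (h : Tw I s X0 B0 X1 B1 S F) :
    (s : ℤ) * #(S ∩ X1) = (s : ℤ) ^ 2 + s + 1 + s * #(F ∩ B1) - #(B0 ∩ B1) := by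
  have h1 := sum_n_B0 h.p1 S
  rw [Finset.sum_congr rfl (fun b _ => h.nb b), Finset.sum_sub_distrib, Finset.sum_add_distrib,
    Finset.sum_add_distrib, ← Finset.mul_sum, sum_ind, sum_ind, sum_ind, Finset.sum_const, h.cS,
    h.p1.cardB0, Finset.inter_self, h.p1.cardB0, Finset.inter_comm B1 F,
    Finset.inter_comm B1 B0] at h1
  simp only [nsmul_eq_mul, mul_one] at h1
  push_cast at h1
  linear_combination -h1

theorem n_sub (h : Pl I s X0 B0) (b : B) :
    (n I X0 b : ℤ) = 1 + s * (if b ∈ B0 then 1 else 0) := by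
  unfold n
  split_ifs with hb
  · rw [h.b1 b hb]; push_cast; ring
  · rw [h.b0 b hb]; simp

/-- The two subplanes have as many common points as common lines. -/
theorem Tw.r3 (h : Tw I s X0 B0 X1 B1 S F) (hs : 0 < s) : #(X0 ∩ X1) = #(B0 ∩ B1) := by
  have h1 := sum_n_B0 h.p1 X0
  rw [Finset.sum_congr rfl (fun b _ => n_sub h.p0 b), Finset.sum_add_distrib, ← Finset.mul_sum,
    sum_ind, Finset.sum_const, h.p0.cardX0, h.p1.cardB0, Finset.inter_comm B1 B0] at h1
  simp only [nsmul_eq_mul, mul_one] at h1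
  push_cast at h1
  have hs' : (s : ℤ) ≠ 0 := by exact_mod_cast hs.ne'
  have h2 : (#(X0 ∩ X1) : ℤ) = #(B0 ∩ B1) := by
    apply mul_left_cancel₀ hs'
    linarith
  exact_mod_cast h2

theorem Tw.r4 (h : Tw I s X0 B0 X1 B1 S F) :
    (#(S ∩ X0) : ℤ) - #(S ∩ X1) = #(F ∩ B1) - #(F ∩ B0) := by
  have h1 := dc (I := I) S F (fun _ => (1 : ℤ))
  have h2 : ∑ x ∈ S, ∑ b ∈ F with I x b, (1 : ℤ) =
      ∑ x ∈ S, ((1 : ℤ) + s + (if x ∈ X0 then 1 else 0) - (if x ∈ X1 then 1 else 0)) := by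
    apply Finset.sum_congr rfl
    intro x hx
    have h3 := h.dx x
    rw [if_pos hx, mul_one] at h3
    rw [← h3]
    simp [d]
  have h4 : ∑ b ∈ F, (#{x ∈ S | I x b} : ℤ) * 1 =
      ∑ b ∈ F, ((1 : ℤ) + s + (if b ∈ B1 then 1 else 0) - (if b ∈ B0 then 1 else 0)) := by
    apply Finset.sum_congr rfl
    intro b hb
    have h3 := h.nb b
    rw [if_pos hb, mul_one] at h3
    rw [← h3]
    simp [n]
  rw [h2, h4] at h1
  simp only [Finset.sum_sub_distrib, Finset.sum_add_distrib, sum_ind, Finset.sum_const, h.cS,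
    h.cF, nsmul_eq_mul] at h1
  linarith

theorem Tw.eq_a (h : Tw I s X0 B0 X1 B1 S F) (hs : 0 < s) :
    #(S ∩ X0) = #(F ∩ B1) ∧ #(S ∩ X1) = #(F ∩ B0) := by
  have hs' : (s : ℤ) ≠ 0 := by exact_mod_cast hs.ne'
  have h1 := h.r1
  have h2 := h.r2
  have h4 := h.r4
  have h5 : (#(S ∩ X1) : ℤ) - #(F ∩ B1) = #(F ∩ B0) - #(S ∩ X0) := by
    apply mul_left_cancel₀ hs'
    linarith
  constructor
  · have : (#(S ∩ X0) : ℤ) = #(F ∩ B1) := by linarith
    exact_mod_cast this
  · have : (#(S ∩ X1) : ℤ) = #(F ∩ B0) := by linarith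
    exact_mod_cast this

theorem Tw.n_zero (h : Tw I s X0 B0 X1 B1 S F) {b : B} :
    n I S b = 0 ↔ b ∈ B0 ∧ b ∉ F ∧ b ∉ B1 := by
  have h1 := h.nb b
  constructor
  · intro h2
    rw [h2] at h1
    have h3 : (0 : ℤ) ≤ s := by positivity
    refine ⟨?_, ?_, ?_⟩
    · by_contra h4
      rw [if_neg h4] at h1
      split_ifs at h1 <;> push_cast at h1 <;> linarith
    · intro h4
      rw [if_pos h4] at h1
      by_cases h5 : s = 0
      · subst h5
        have h6 := h.p0.degB b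
        have h7 := h.cS
        have h8 : n I S b ≤ 1 := by
          unfold n
          calc #{x ∈ S | I x b} ≤ #S := Finset.card_filter_le _ _
            _ = 1 := by rw [h7]; rfl
        have hc : Fintype.card X = 1 := by rw [h.cardX]; rfl
        have hS : S = Finset.univ := by
          rw [← Finset.card_eq_iff_eq_univ, h7, hc]; rfl
        have h9 : n I S b = 1 := by
          rw [hS]; unfold n; rw [h6]; rfl
        omega
      · have h6 : (1 : ℤ) ≤ s := by exact_mod_cast Nat.one_le_iff_ne_zero.2 h5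
        split_ifs at h1 <;> push_cast at h1 <;> linarith
    · intro h4
      rw [if_pos h4] at h1
      split_ifs at h1 <;> push_cast at h1 <;> linarith
  · rintro ⟨h2, h3, h4⟩
    rw [if_pos h2, if_neg h3, if_neg h4] at h1
    simp only [mul_zero, add_zero, sub_self] at h1
    exact_mod_cast h1

theorem Tw.n_big (h : Tw I s X0 B0 X1 B1 S F) (hs : 2 ≤ s) {b : B} :
    n I S b = s + 2 ↔ b ∈ F ∧ b ∈ B1 ∧ b ∉ B0 := by
  have h1 := h.nb b
  have h3 : (2 : ℤ) ≤ s := by exact_mod_cast hs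
  constructor
  · intro h2
    rw [h2] at h1
    push_cast at h1
    by_cases h4 : b ∈ F <;> by_cases h5 : b ∈ B1 <;> by_cases h6 : b ∈ B0 <;>
      simp only [h4, h5, h6, if_true, if_false, not_true_eq_false, not_false_eq_true, and_true,
        and_self, and_false] at h1 ⊢ <;> linarith
  · rintro ⟨h2, h4, h5⟩
    rw [if_pos h2, if_pos h4, if_neg h5] at h1
    have : (n I S b : ℤ) = ((s + 2 : ℕ) : ℤ) := by rw [h1]; push_cast; ring
    exact_mod_cast this

theorem Tw.zc_eq (h : Tw I s X0 B0 X1 B1 S F) :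
    zc I S + #(F ∩ B0) + #(B0 ∩ B1) = s ^ 2 + s + 1 + #(F ∩ B0 ∩ B1) := by
  have h1 : zc I S + #((F ∩ B0) ∪ (B0 ∩ B1)) = s ^ 2 + s + 1 := by
    rw [← h.p0.cardB0]
    unfold zc
    rw [← Finset.card_union_of_disjoint]
    · congr 1
      ext b
      simp only [Finset.mem_union, Finset.mem_filter, Finset.mem_univ, true_and,
        Finset.mem_inter, h.n_zero]
      tauto
    · rw [Finset.disjoint_left]
      intro b hb hb'
      simp only [Finset.mem_union, Finset.mem_filter, Finset.mem_univ, true_and,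
        Finset.mem_inter, h.n_zero] at hb hb'
      tauto
  have h2 := Finset.card_union_add_card_inter (F ∩ B0) (B0 ∩ B1)
  have h3 : (F ∩ B0) ∩ (B0 ∩ B1) = F ∩ B0 ∩ B1 := by
    ext b
    simp only [Finset.mem_inter]
    tauto
  rw [h3] at h2
  omega

theorem Tw.yc_eq (h : Tw I s X0 B0 X1 B1 S F) (hs : 2 ≤ s) :
    yc I s S + #(F ∩ B0 ∩ B1) = #(F ∩ B1) := by
  unfold yc
  rw [← Finset.card_union_of_disjoint]
  · congr 1
    ext b
    simp only [Finset.mem_union, Finset.mem_filter, Finset.mem_univ, true_and,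
      Finset.mem_inter, h.n_big hs]
    tauto
  · rw [Finset.disjoint_left]
    intro b hb hb'
    simp only [Finset.mem_filter, Finset.mem_univ, true_and,
      Finset.mem_inter, h.n_big hs] at hb hb'
    tauto

/-- The blocks of the first subplane through an element of it. -/
noncomputable def T0 (I : X → B → Prop) (B0 : Finset B) (x : X) : Finset B := {b ∈ B0 | I x b}

theorem card_T0_inter (h : Pl I s X0 B0) {x y : X} (hxy : x ≠ y) :
    #(T0 I B0 x ∩ T0 I B0 y) ≤ 1 := by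
  rw [Finset.card_le_one]
  intro b hb c hc
  simp only [T0, Finset.mem_inter, Finset.mem_filter] at hb hc
  exact uniq_block h hxy hb.1.2 hb.2.2 hc.1.2 hc.2.2

theorem Tw.T0_sub (h : Tw I s X0 B0 X1 B1 S F) {x : X} (hx : x ∈ S) :
    T0 I B0 x ⊆ (F ∩ B0) ∪ (B0 ∩ B1) := by
  intro b hb
  simp only [T0, Finset.mem_filter] at hb
  simp only [Finset.mem_union, Finset.mem_inter]
  by_contra hcon
  have h1 : n I S b = 0 := h.n_zero.2 ⟨hb.1, by tauto, by tauto⟩
  have h2 := n_pos hx hb.2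
  omega

theorem Tw.card_nonmissed (h : Tw I s X0 B0 X1 B1 S F) :
    zc I S + #((F ∩ B0) ∪ (B0 ∩ B1)) = s ^ 2 + s + 1 := by
  have h2 := Finset.card_union_add_card_inter (F ∩ B0) (B0 ∩ B1)
  have h3 : (F ∩ B0) ∩ (B0 ∩ B1) = F ∩ B0 ∩ B1 := by
    ext b
    simp only [Finset.mem_inter]
    tauto
  rw [h3] at h2
  have h4 := h.zc_eq
  omega

/-- Two elements of `S` in the subplane force many blocks which are not missed. -/
theorem Tw.two_le (h : Tw I s X0 B0 X1 B1 S F) (h2 : 2 ≤ #(S ∩ X0)) :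
    zc I S + 2 * s + 1 ≤ s ^ 2 + s + 1 := by
  obtain ⟨x, hx, y, hy, hxy⟩ := Finset.one_lt_card.1 h2
  rw [Finset.mem_inter] at hx hy
  have h3 := Finset.card_le_card (Finset.union_subset (h.T0_sub hx.1) (h.T0_sub hy.1))
  have h4 := Finset.card_union_add_card_inter (T0 I B0 x) (T0 I B0 y)
  have h5 := card_T0_inter h.p0 hxy
  have h6 : #(T0 I B0 x) = s + 1 := h.p0.x1 x hx.2
  have h7 : #(T0 I B0 y) = s + 1 := h.p0.x1 y hy.2
  have h8 := h.card_nonmissed
  omega

theorem Tw.three_le (h : Tw I s X0 B0 X1 B1 S F) (h2 : 3 ≤ #(S ∩ X0)) :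
    zc I S + 3 * s ≤ s ^ 2 + s + 1 := by
  obtain ⟨x, hx, y, hy, w, hw, hxy, hxw, hyw⟩ := Finset.two_lt_card.1 h2
  rw [Finset.mem_inter] at hx hy hw
  have h3 := Finset.card_le_card (Finset.union_subset
    (Finset.union_subset (h.T0_sub hx.1) (h.T0_sub hy.1)) (h.T0_sub hw.1))
  have h4 := Finset.card_union_add_card_inter (T0 I B0 x) (T0 I B0 y)
  have h4' := Finset.card_union_add_card_inter (T0 I B0 x ∪ T0 I B0 y) (T0 I B0 w)
  have h5 := card_T0_inter h.p0 hxy
  have h5' : #((T0 I B0 x ∪ T0 I B0 y) ∩ T0 I B0 w) ≤ 2 := by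
    rw [Finset.union_inter_distrib_right]
    have h9 := Finset.card_union_le (T0 I B0 x ∩ T0 I B0 w) (T0 I B0 y ∩ T0 I B0 w)
    have h10 := card_T0_inter h.p0 hxw
    have h11 := card_T0_inter h.p0 hyw
    omega
  have h6 : #(T0 I B0 x) = s + 1 := h.p0.x1 x hx.2
  have h7 : #(T0 I B0 y) = s + 1 := h.p0.x1 y hy.2
  have h7' : #(T0 I B0 w) = s + 1 := h.p0.x1 w hw.2
  have h8 := h.card_nonmissed
  omega

/-- The table of types of critical sets. -/
theorem types (hC : Crit I s X0 B0 S) (h : Tw I s X0 B0 X1 B1 S F) :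
    (#(B0 ∩ B1) = 1 ∧ zc I S + 1 = s ^ 2 ∧ #(S ∩ X0) ≤ 1 ∧
      #(F ∩ B0) = #(S ∩ X0) + s + 1) ∨
    (#(B0 ∩ B1) = s + 1 ∧ (zc I S + s = s ^ 2 ∨ zc I S + s + 1 = s ^ 2) ∧ #(S ∩ X0) ≤ 2 ∧
      #(F ∩ B0) = #(S ∩ X0) + s) := by
  have hs := hC.hs
  have hsZ : (20 : ℤ) ≤ s := by exact_mod_cast hs
  have h1 := h.r1
  have h2 := (h.eq_a (by omega)).1
  have h3 : (zc I S : ℤ) + #(F ∩ B0) + #(B0 ∩ B1) = (s : ℤ) ^ 2 + s + 1 + #(F ∩ B0 ∩ B1) := by
    exact_mod_cast h.zc_eq
  have h4 : (yc I s S : ℤ) + #(F ∩ B0 ∩ B1) = #(F ∩ B1) := by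
    exact_mod_cast h.yc_eq (by omega)
  have h5 : (#(S ∩ X0) : ℤ) = #(F ∩ B1) := by exact_mod_cast h2
  have hc0 : (0 : ℤ) ≤ #(B0 ∩ B1) := by positivity
  have ha0 : (0 : ℤ) ≤ #(S ∩ X0) := by positivity
  have hm0 : (0 : ℤ) ≤ #(F ∩ B0 ∩ B1) := by positivity
  have htwo := h.two_le
  have hthree := h.three_le
  obtain ⟨k, hk⟩ : ∃ k : ℤ, k = #(F ∩ B0) - #(S ∩ X0) := ⟨_, rfl⟩
  have e1 : (s : ℤ) * k = (s : ℤ) ^ 2 + s + 1 - #(B0 ∩ B1) := by rw [hk]; linarith
  have e2 : (zc I S : ℤ) = (s - 1) * k - yc I s S := by linarith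
  have hk1 : k ≤ s + 1 := by
    by_contra hcon
    push Not at hcon
    have : (s : ℤ) + 2 ≤ k := by omega
    nlinarith
  have key : (k = s + 1 → (#(B0 ∩ B1) = 1 ∧ #(F ∩ B0) = #(S ∩ X0) + s + 1)) ∧
      (k = s → (#(B0 ∩ B1) = s + 1 ∧ #(F ∩ B0) = #(S ∩ X0) + s)) := by
    constructor
    · intro h6
      constructor
      · have : (#(B0 ∩ B1) : ℤ) = 1 := by rw [h6] at e1; linarith
        exact_mod_cast this
      · have : (#(F ∩ B0) : ℤ) = #(S ∩ X0) + s + 1 := by linarith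
        exact_mod_cast this
    · intro h6
      constructor
      · have : (#(B0 ∩ B1) : ℤ) = s + 1 := by rw [h6] at e1; linarith
        exact_mod_cast this
      · have : (#(F ∩ B0) : ℤ) = #(S ∩ X0) + s := by linarith
        exact_mod_cast this
  by_cases hy : ∃ m, n I S m = s + 2
  · obtain ⟨m, hm⟩ := hy
    have h6 := zc_of_big hC hm
    have h7 : 1 ≤ yc I s S := by
      unfold yc
      rw [Nat.one_le_iff_ne_zero, Finset.card_ne_zero]
      exact ⟨m, by simp [hm]⟩
    have h7' : (1 : ℤ) ≤ yc I s S := by exact_mod_cast h7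
    have h8 : (s : ℤ) ≤ k := by
      by_contra hcon
      push Not at hcon
      have : k ≤ (s : ℤ) - 1 := by omega
      nlinarith
    have hz : zc I S + s + 1 = s ^ 2 := by
      have : ((zc I S + s + 1 : ℕ) : ℤ) = ((s ^ 2 : ℕ) : ℤ) := by push_cast; linarith
      exact_mod_cast this
    have hle : #(S ∩ X0) ≤ 2 := by
      by_contra hcon
      push Not at hcon
      have := hthree hcon
      omega
    have h9 : k = s ∨ k = s + 1 := by omega
    rcases h9 with h9 | h9
    · right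
      exact ⟨(key.2 h9).1, Or.inr hz, hle, (key.2 h9).2⟩
    · exfalso
      have h10 : (yc I s S : ℤ) = s := by
        rw [h9, h6] at e2
        linarith
      have h11 : (#(S ∩ X0) : ℤ) ≤ 2 := by exact_mod_cast hle
      linarith
  · push Not at hy
    have hy0 : yc I s S = 0 := by
      unfold yc
      rw [Finset.card_eq_zero, Finset.filter_eq_empty_iff]
      intro b _
      exact hy b
    rw [hy0] at e2
    push_cast at e2
    rw [sub_zero] at e2
    have hs1 : (s : ℤ) - 1 ≠ 0 := by linarith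
    rcases zc_of_not_big hC hy with h6 | h6
    · have h9 : k = s := by
        apply mul_left_cancel₀ hs1
        rw [← e2, h6]; ring
      have hz : zc I S + s = s ^ 2 := by
        have : ((zc I S + s : ℕ) : ℤ) = ((s ^ 2 : ℕ) : ℤ) := by push_cast; linarith
        exact_mod_cast this
      right
      refine ⟨(key.2 h9).1, Or.inl hz, ?_, (key.2 h9).2⟩
      by_contra hcon
      push Not at hcon
      have := hthree hcon
      omega
    · have h9 : k = s + 1 := by
        apply mul_left_cancel₀ hs1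
        rw [← e2, h6]; ring
      have hz : zc I S + 1 = s ^ 2 := by
        have : ((zc I S + 1 : ℕ) : ℤ) = ((s ^ 2 : ℕ) : ℤ) := by push_cast; linarith
        exact_mod_cast this
      left
      refine ⟨(key.1 h9).1, hz, ?_, (key.1 h9).2⟩
      by_contra hcon
      push Not at hcon
      have := htwo hcon
      omega

end Pool.Agent.Helper9.BS
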